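import Mathlib

set_option autoImplicit false

namespace Pool.Agent.H.MP_22cd7c_nt
open Finset

section gen
variable {α : Type*} [DecidableEq α]

/-- Bernoulli weight of the subset `S` of `P` -/
noncomputable def nu (r : α → ℝ) (P S : Finset α) : ℝ := ∏ p ∈ P, if p ∈ S then r p else 1 - r p

/-- expectation over a random subset of `P` -/
noncomputable def E (r : α → ℝ) (P : Finset α) (f : Finset α → ℝ) : ℝ :=
  ∑ S ∈ P.powerset, nu r P S * f S

lemma sum_ite_prod (P : Finset α) (a b : α → ℝ) :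
    ∑ S ∈ P.powerset, ∏ p ∈ P, (if p ∈ S then a p else b p) = ∏ p ∈ P, (a p + b p) := by
  rw [prod_add]
  refine sum_congr rfl fun S hS => ?_
  rw [prod_ite]
  congr 2
  · ext p; simp only [mem_filter]; exact ⟨fun h => h.2, fun h => ⟨mem_powerset.mp hS h, h⟩⟩
  · ext p; simp

variable {r : α → ℝ} {P Q : Finset α} {f g : Finset α → ℝ}

lemma nu_nonneg (h : ∀ p ∈ P, 0 ≤ r p ∧ r p ≤ 1 / 2) (S : Finset α) : 0 ≤ nu r P S :=
  prod_nonneg fun p hp => by have := h p hp; split_ifs <;> linarith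

lemma E_prod (a b : α → ℝ) : E r P (fun S => ∏ p ∈ P, if p ∈ S then a p else b p) =
    ∏ p ∈ P, (r p * a p + (1 - r p) * b p) := by
  rw [← sum_ite_prod]
  refine sum_congr rfl fun S _ => ?_
  rw [nu, ← prod_mul_distrib]
  exact prod_congr rfl fun p _ => by split_ifs <;> rfl

lemma E_const (c : ℝ) : E r P (fun _ => c) = c := by
  have := sum_ite_prod P r (fun p => 1 - r p)
  simp only [add_sub_cancel, prod_const_one] at this
  rw [E, ← sum_mul]; unfold nu; rw [this, one_mul]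

lemma E_mono (h : ∀ p ∈ P, 0 ≤ r p ∧ r p ≤ 1 / 2) (hfg : ∀ S ⊆ P, f S ≤ g S) :
    E r P f ≤ E r P g :=
  sum_le_sum fun S hS => mul_le_mul_of_nonneg_left (hfg S (mem_powerset.mp hS)) (nu_nonneg h S)

lemma E_congr (hfg : ∀ S ⊆ P, f S = g S) : E r P f = E r P g :=
  sum_congr rfl fun S hS => by rw [hfg S (mem_powerset.mp hS)]

lemma E_add : E r P (fun S => f S + g S) = E r P f + E r P g := by
  simp only [E, mul_add, sum_add_distrib]

lemma E_mul (c : ℝ) : E r P (fun S => c * f S) = c * E r P f := by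
  simp only [E, mul_sum]; exact sum_congr rfl fun S _ => by ring

lemma E_sum {β : Type*} (s : Finset β) (F : β → Finset α → ℝ) :
    E r P (fun S => ∑ b ∈ s, F b S) = ∑ b ∈ s, E r P (F b) := by
  simp only [E, mul_sum]; exact sum_comm

lemma E_nonneg (h : ∀ p ∈ P, 0 ≤ r p ∧ r p ≤ 1 / 2) (hf : ∀ S ⊆ P, 0 ≤ f S) : 0 ≤ E r P f := by
  rw [← E_const (r := r) (P := P) 0]; exact E_mono h hf

lemma E_insert {i : α} (hi : i ∉ P) : E r (insert i P) f =
    r i * E r P (fun S => f (insert i S)) + (1 - r i) * E r P f := by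
  rw [E, sum_powerset_insert hi, add_comm, E, E, mul_sum, mul_sum]
  congr 1 <;> refine sum_congr rfl fun S hS => ?_
  · rw [nu, prod_insert hi, if_pos (mem_insert_self _ _), mul_assoc, nu]
    congr 2
    refine prod_congr rfl fun p hp => ?_
    have : p ≠ i := fun e => hi (e ▸ hp)
    simp [this]
  · rw [nu, prod_insert hi, if_neg (fun e => hi (mem_powerset.mp hS e)), mul_assoc, nu]

lemma E_union (hd : Disjoint P Q) :
    E r (P ∪ Q) f = E r P (fun S => E r Q (fun T => f (S ∪ T))) := by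
  induction P using Finset.induction_on generalizing f with
  | empty => simp [E, nu]
  | insert a P ha ih =>
    rw [disjoint_insert_left] at hd
    rw [insert_union, E_insert (by simp [ha, hd.1]), E_insert ha, ih hd.2, ih hd.2]
    simp only [insert_union]

lemma mecke (h : ∀ p ∈ P, 0 ≤ r p ∧ r p ≤ 1 / 2) {i : α} (hi : i ∈ P) (hf : ∀ S, 0 ≤ f S) :
    E r P (fun S => if i ∈ S then f (S.erase i) else 0) ≤ 2 * r i * E r P f := by
  have h' : ∀ p ∈ P.erase i, 0 ≤ r p ∧ r p ≤ 1 / 2 := fun p hp => h p (mem_of_mem_erase hp)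
  have hn := notMem_erase i P
  rw [← insert_erase hi, E_insert hn, E_insert hn]
  have e1 : E r (P.erase i) (fun S => if i ∈ insert i S then f ((insert i S).erase i) else 0) =
      E r (P.erase i) f := E_congr fun S hS => by
    rw [if_pos (mem_insert_self _ _), erase_insert (fun e => hn (hS e))]
  have e2 : E r (P.erase i) (fun S => if i ∈ S then f (S.erase i) else 0) = 0 :=
    (E_congr fun S hS => if_neg (fun e => hn (hS e))).trans (E_const 0)
  rw [e1, e2]
  have a1 := E_nonneg h' (f := f) fun S _ => hf S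
  have a2 := E_nonneg h' (f := fun S => f (insert i S)) fun S _ => hf _
  obtain ⟨b1, b2⟩ := h i hi
  nlinarith [mul_nonneg b1 (mul_nonneg b1 a2), mul_nonneg (mul_nonneg b1 a1) (sub_nonneg.mpr b2)]

lemma E_image {ι : Type*} [DecidableEq ι] [Fintype ι] {π : ι → α} (hπ : Function.Injective π) :
    E r (univ.image π) f = E (fun i => r (π i)) univ (fun S => f (S.image π)) := by
  rw [E, E, powerset_image, sum_image (fun _ _ _ _ e => image_injective hπ e)]
  refine sum_congr rfl fun S _ => ?_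
  rw [nu, nu, prod_image (fun _ _ _ _ e => hπ e)]
  simp only [hπ.mem_finset_image]

end gen

/-- reciprocal weights -/
noncomputable def rc (p : ℕ) : ℝ := 1 / p

lemma rc_ok {P : Finset ℕ} (hP : ∀ p ∈ P, p.Prime) : ∀ p ∈ P, 0 ≤ rc p ∧ rc p ≤ 1 / 2 :=
  fun p hp => ⟨by unfold rc; positivity,
    one_div_le_one_div_of_le two_pos (by exact_mod_cast (hP p hp).two_le)⟩

/-- a triple of subsets of `P` with equal pairwise unions and close products -/
def Tri (κ : ℝ) (P : Finset ℕ) (m : ZMod 3 → Finset ℕ) : Prop :=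
  (∀ k, m k ⊆ P) ∧ (∀ k k', m k = m k' → k = k') ∧ (∀ k k' k'', k ≠ k' → m k'' ⊆ m k ∪ m k') ∧
    ∀ k k', ∏ p ∈ m k, (p : ℝ) ≤ κ * ∏ p ∈ m k', (p : ℝ)

/-- a family of disjoint triples -/
def Mat (κ : ℝ) (P : Finset ℕ) (M : Finset (ZMod 3 → Finset ℕ)) : Prop :=
  (∀ m ∈ M, Tri κ P m) ∧ ∀ m ∈ M, ∀ m' ∈ M, ∀ k k', m k = m' k' → m = m'

/-- indicator of the sets not covered -/
noncomputable def unc (M : Finset (ZMod 3 → Finset ℕ)) (S : Finset ℕ) : ℝ :=
  if ∃ m ∈ M, ∃ k, m k = S then 0 else 1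

lemma unc_nonneg (M : Finset (ZMod 3 → Finset ℕ)) (S : Finset ℕ) : 0 ≤ unc M S := by
  unfold unc; split_ifs <;> norm_num

/-- some family covers all but `β` -/
def Good (κ : ℝ) (P : Finset ℕ) (β : ℝ) : Prop := ∃ M, Mat κ P M ∧ E rc P (unc M) ≤ β

lemma tri_union {κ : ℝ} {P Q T : Finset ℕ} {m : ZMod 3 → Finset ℕ} (hd : Disjoint P Q)
    (h : Tri κ P m) (hT : T ⊆ Q) : Tri κ (P ∪ Q) (fun k => m k ∪ T) := by
  obtain ⟨h1, h2, h3, h4⟩ := h
  have d : ∀ k, Disjoint (m k) T := fun k => hd.mono (h1 k) hT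
  refine ⟨fun k => union_subset_union (h1 k) hT, fun k k' e => h2 k k' ?_, fun k k' k'' e => ?_,
    fun k k' => ?_⟩
  · have := congrArg (· \ T) e
    simpa only [union_sdiff_cancel_right (d k), union_sdiff_cancel_right (d k')] using this
  · intro x hx
    have := @h3 k k' k'' e x
    simp only [mem_union] at *
    tauto
  · rw [prod_union (d k), prod_union (d k'), ← mul_assoc]
    exact mul_le_mul_of_nonneg_right (h4 k k') (by positivity)

lemma split_eq {P Q A B C D : Finset ℕ} (hd : Disjoint P Q) (hA : A ⊆ P) (hB : B ⊆ Q)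
    (hC : C ⊆ P) (hD : D ⊆ Q) (e : A ∪ B = C ∪ D) : A = C ∧ B = D := by
  rw [disjoint_left] at hd
  have : ∀ x, (x ∈ A ∨ x ∈ B) ↔ (x ∈ C ∨ x ∈ D) := fun x => by simp only [← mem_union, e]
  constructor <;> ext x <;> have := this x <;> have := @hA x <;> have := @hB x <;>
    have := @hC x <;> have := @hD x <;> have := @hd x <;> tauto

lemma boost {κ β β' : ℝ} {P Q : Finset ℕ} (hP : ∀ p ∈ P, p.Prime) (hQ : ∀ p ∈ Q, p.Prime)
    (hβ' : 0 ≤ β')
    (hd : Disjoint P Q) (h : Good κ P β) (h' : Good κ Q β') : Good κ (P ∪ Q) (β * β') := by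
  classical
  obtain ⟨M, ⟨m1, m2⟩, m3⟩ := h
  obtain ⟨N, ⟨n1, n2⟩, n3⟩ := h'
  set U := P.powerset.filter (fun S => ¬ ∃ m ∈ M, ∃ k, m k = S) with hU
  refine ⟨(M ×ˢ Q.powerset).image (fun z k => z.1 k ∪ z.2) ∪
    (U ×ˢ N).image (fun z k => z.1 ∪ z.2 k), ⟨?_, ?_⟩, ?_⟩
  · simp only [mem_union, mem_image, mem_product, mem_powerset, hU, mem_filter]
    rintro _ (⟨z, ⟨a, b⟩, rfl⟩ | ⟨z, ⟨a, b⟩, rfl⟩)
    · exact tri_union hd (m1 _ a) b
    · simpa only [union_comm] using tri_union hd.symm (n1 _ b) a.1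
  · simp only [mem_union, mem_image, mem_product, mem_powerset, hU, mem_filter]
    rintro _ (⟨z, ⟨a, b⟩, rfl⟩ | ⟨z, ⟨a, b⟩, rfl⟩) _ (⟨w, ⟨c, d⟩, rfl⟩ | ⟨w, ⟨c, d⟩, rfl⟩) k k' e
    · obtain ⟨e1, e2⟩ := split_eq hd ((m1 _ a).1 k) b ((m1 _ c).1 k') d e
      rw [m2 _ a _ c _ _ e1, e2]
    · exact absurd ⟨_, a, k, (split_eq hd ((m1 _ a).1 k) b c.1 ((n1 _ d).1 k') e).1⟩ c.2
    · exact absurd ⟨_, c, k', (split_eq hd a.1 ((n1 _ b).1 k) ((m1 _ c).1 k') d e).1.symm⟩ a.2
    · obtain ⟨e1, e2⟩ := split_eq hd a.1 ((n1 _ b).1 k) c.1 ((n1 _ d).1 k') e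
      rw [n2 _ b _ d _ _ e2, e1]
  · rw [E_union hd]
    refine le_trans (E_mono (rc_ok hP) (g := fun S => β' * unc M S) fun S hS => ?_) ?_
    · by_cases hc : ∃ m ∈ M, ∃ k, m k = S
      · rw [unc, if_pos hc, mul_zero]
        refine le_of_eq ((E_congr fun T hT => if_pos ?_).trans (E_const 0))
        obtain ⟨m, hm, k, rfl⟩ := hc
        exact ⟨_, mem_union_left _ (mem_image_of_mem _ (mem_product.mpr
          (⟨hm, mem_powerset.mpr hT⟩ : (m, T).1 ∈ _ ∧ (m, T).2 ∈ _))), k, rfl⟩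
      · rw [unc, if_neg hc, mul_one]
        refine le_trans (E_mono (rc_ok hQ) fun T hT => ?_) n3
        by_cases hn : ∃ m ∈ N, ∃ k, m k = T
        · rw [unc, unc, if_pos hn, if_pos]
          obtain ⟨m, hm, k, rfl⟩ := hn
          exact ⟨_, mem_union_right _ (mem_image_of_mem _ (mem_product.mpr
            (⟨mem_filter.mpr ⟨mem_powerset.mpr hS, hc⟩, hm⟩ : (S, m).1 ∈ _ ∧ (S, m).2 ∈ _))), k, rfl⟩
        · rw [unc, unc, if_neg hn]; split_ifs <;> norm_num
    · rw [E_mul, mul_comm]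
      exact mul_le_mul_of_nonneg_right m3 hβ'

lemma maxmat {κ c : ℝ} {P : Finset ℕ}
    (h : ∀ V : Finset ℕ → ℝ, (∀ S, V S = 0 ∨ V S = 1) →
      (∀ m, Tri κ P m → ∃ k, V (m k) = 1) → c ≤ E rc P V) : Good κ P (1 - c) := by
  classical
  obtain ⟨M, hM, hmax⟩ := exists_max_image
    (((Fintype.piFinset fun _ : ZMod 3 => P.powerset).powerset).filter (Mat κ P)) card
    ⟨∅, by simp [Mat]⟩
  have hM' := (mem_filter.mp hM).2
  refine ⟨M, hM', ?_⟩
  have := h (fun S => 1 - unc M S) (fun S => by unfold unc; split_ifs <;> norm_num) fun m hm => by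
    by_contra hn
    push Not at hn
    have hc : ∀ k, ∀ m' ∈ M, ∀ k', m' k' ≠ m k := fun k m' hm' k' e =>
      hn k (by rw [unc, if_pos ⟨m', hm', k', e⟩, sub_zero])
    have := hmax (insert m M) (mem_filter.mpr ⟨mem_powerset.mpr (insert_subset
      (Fintype.mem_piFinset.mpr fun k => mem_powerset.mpr (hm.1 k))
      (mem_powerset.mp (mem_filter.mp hM).1)), fun x hx => ?_, fun x hx y hy k k' e => ?_⟩)
    · rw [card_insert_of_notMem fun e => hc 0 m e 0 rfl] at this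
      omega
    · rcases mem_insert.mp hx with rfl | hx
      exacts [hm, hM'.1 x hx]
    · rcases mem_insert.mp hx with rfl | ax <;> rcases mem_insert.mp hy with rfl | ay
      exacts [rfl, absurd e.symm (hc _ _ ay _), absurd e (hc _ _ ax _), hM'.2 x ax y ay k k' e]
  have e : E rc P (fun S => 1 - unc M S) + E rc P (unc M) = 1 := by
    rw [← E_add]; simp only [sub_add_cancel]; exact E_const 1
  linarith

lemma small {κ c : ℝ} (hc : 0 < c) (hc1 : c ≤ 1)
    (h : ∀ Y : ℕ, ∃ P : Finset ℕ, (∀ p ∈ P, p.Prime ∧ Y < p) ∧ Good κ P (1 - c))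
    {β : ℝ} (hβ : 0 < β) (Y : ℕ) : ∃ P : Finset ℕ, (∀ p ∈ P, p.Prime ∧ Y < p) ∧ Good κ P β := by
  have key : ∀ n : ℕ, ∃ P : Finset ℕ, (∀ p ∈ P, p.Prime ∧ Y < p) ∧ Good κ P ((1 - c) ^ (n + 1)) := by
    intro n
    induction n with
    | zero => simpa using h Y
    | succ n ih =>
      obtain ⟨P, p1, p2⟩ := ih
      obtain ⟨Q, q1, q2⟩ := h (Y + P.sup id)
      refine ⟨P ∪ Q, fun p hp => ?_, ?_⟩
      · rcases mem_union.mp hp with hp | hp
        exacts [p1 p hp, ⟨(q1 p hp).1, by have := (q1 p hp).2; omega⟩]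
      · rw [pow_succ]
        refine boost (fun p hp => (p1 p hp).1) (fun p hp => (q1 p hp).1) (by linarith)
          (disjoint_left.mpr fun p hp hq => ?_) p2 q2
        have := (q1 p hq).2
        have : id p ≤ P.sup id := le_sup hp
        simp only [id] at this
        omega
  obtain ⟨n, hn⟩ := exists_pow_lt_of_lt_one hβ (show 1 - c < 1 by linarith)
  obtain ⟨P, p1, M, p2, p3⟩ := key n
  refine ⟨P, p1, M, p2, p3.trans (le_trans ?_ hn.le)⟩
  exact pow_le_pow_of_le_one (by linarith) (by linarith) (Nat.le_succ n)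

end Pool.Agent.H.MP_22cd7c_nt
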