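import Pool.Agent.H.MP_22cd7c_nt.A
import Pool.Agent.H.MP_3aed06_nt.A

set_option autoImplicit false

namespace Pool.Agent.H.MP_22cd7c_nt
open Finset Pool.Agent.H.MP_3aed06_nt

lemma dens (P : Finset ℕ) (hP : ∀ p ∈ P, p.Prime) (f : Finset ℕ → ℝ) (hf : ∀ S, |f S| ≤ 1) (N : ℕ) :
    ∑ a ∈ range N, f (P.filter (· ∣ 1 + a)) ≤ N * E rc P f + 2 * (∏ p ∈ P, p : ℕ) := by
  have M0 : 0 < ∏ p ∈ P, p := prod_pos fun p hp => (hP p hp).pos
  have h1 := per_sum (fun a => f (P.filter (· ∣ a))) _ M0 (fun a => by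
    refine congrArg f (filter_congr fun p hp => ?_)
    exact (Nat.dvd_add_left (dvd_prod_of_mem (fun p => p) hp))) (fun a => hf _) 1 N
  have h2 : ∑ a ∈ range (∏ p ∈ P, p), f (P.filter (· ∣ a)) = (∏ p ∈ P, p : ℕ) * E rc P f := by
    have e : ∀ a, f (P.filter (· ∣ a)) = ∑ S ∈ P.powerset,
        (∏ p ∈ P, if (p ∣ a ↔ p ∈ S) then (1 : ℝ) else 0) * f S := fun a => by
      rw [sum_eq_single (P.filter (· ∣ a))]
      · rw [prod_eq_one fun p hp => if_pos (by simp [hp]), one_mul]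
      · intro S hS hne
        rw [prod_boole, if_neg, zero_mul]
        intro h
        refine hne (ext fun p => ⟨fun hp => ?_, fun hp => ?_⟩)
        · exact mem_filter.mpr ⟨mem_powerset.mp hS hp, (h p (mem_powerset.mp hS hp)).mpr hp⟩
        · exact (h p (mem_filter.mp hp).1).mp (mem_filter.mp hp).2
      · exact fun h => absurd (mem_powerset.mpr (filter_subset _ _)) h
    simp only [e]
    rw [sum_comm, E, mul_sum]
    refine sum_congr rfl fun S _ => ?_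
    rw [← sum_mul, ← mul_assoc, prod_mean P hP (fun p a => if (p ∣ a ↔ p ∈ S) then (1 : ℝ) else 0)
      (fun p _ a => by simp), nu, Nat.cast_prod, ← prod_mul_distrib]
    congr 1
    refine prod_congr rfl fun p hp => ?_
    obtain ⟨n, rfl⟩ : ∃ n, p = n + 1 := ⟨p - 1, by have := (hP p hp).pos; omega⟩
    rw [sum_range_succ', sum_congr rfl (g := fun _ => if n + 1 ∈ S then (0 : ℝ) else 1)
      fun a ha => by
        have : ¬ n + 1 ∣ a + 1 := Nat.not_dvd_of_pos_of_lt (by omega) (by simpa using ha)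
        by_cases h : n + 1 ∈ S <;> simp [h, this]]
    unfold rc
    by_cases h : n + 1 ∈ S <;> simp [h] <;> field_simp <;> ring
  rw [h2] at h1
  have : (0 : ℝ) < (∏ p ∈ P, p : ℕ) := by exact_mod_cast M0
  rwa [← mul_assoc, div_mul_cancel₀ _ this.ne'] at h1

lemma lcm_prod {W W' : Finset ℕ} (h : ∀ p ∈ W ∪ W', p.Prime) :
    Nat.lcm (∏ p ∈ W, p) (∏ p ∈ W', p) = ∏ p ∈ W ∪ W', p := by
  refine Nat.dvd_antisymm (Nat.lcm_dvd (prod_dvd_prod_of_subset _ _ _ subset_union_left)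
    (prod_dvd_prod_of_subset _ _ _ subset_union_right))
    (prod_primes_dvd _ (fun p hp => (h p hp).prime) fun p hp => ?_)
  rcases mem_union.mp hp with hp | hp
  exacts [(dvd_prod_of_mem _ hp).trans (Nat.dvd_lcm_left _ _),
    (dvd_prod_of_mem _ hp).trans (Nat.dvd_lcm_right _ _)]

lemma dvd_val {U W : Finset ℕ} (hU : ∀ p ∈ U, p.Prime) (hW : W ⊆ U) {u p : ℕ}
    (hu : ∀ p ∈ U, ¬ p ∣ u) (hp : p ∈ U) : p ∣ u * ∏ q ∈ W, q ↔ p ∈ W := by
  refine ⟨fun h => ?_, fun h => (dvd_prod_of_mem _ h).mul_left _⟩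
  obtain ⟨q, hq, e⟩ := ((hU p hp).prime.dvd_finsetProd_iff _).mp
    (((hU p hp).dvd_mul.mp h).resolve_left (hu p hp))
  rwa [(Nat.prime_dvd_prime_iff_eq (hU p hp) (hU q (hW hq))).mp e]

lemma z3 : ∀ a b c : ZMod 3, a + c = b + b → (a = b → c = a) ∧ (b = c → a = b) ∧ (a = c → b = a) := by
  decide

/-- the union of the chosen members -/
def WW {D : ℕ} (m : Fin D → ZMod 3 → Finset ℕ) (k : Fin D → ZMod 3) : Finset ℕ :=
  univ.biUnion fun i => m i (k i)

/-- no three elements with equal pairwise lcm -/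
def Free (A : Finset ℕ) : Prop := ¬ ∃ a ∈ A, ∃ b ∈ A, ∃ c ∈ A, a ≠ b ∧ b ≠ c ∧ a ≠ c ∧
  Nat.lcm a b = Nat.lcm b c ∧ Nat.lcm a b = Nat.lcm a c

section fin
variable {D : ℕ} {κ : ℝ} {P : Fin D → Finset ℕ} {M : Fin D → Finset (ZMod 3 → Finset ℕ)}
  (hP : ∀ p ∈ univ.biUnion P, p.Prime) (hd : ∀ i j, i ≠ j → Disjoint (P i) (P j))
  (hM : ∀ i, Mat κ (P i) (M i))
include hM

lemma WW_sub {m : Fin D → ZMod 3 → Finset ℕ} (hm : ∀ i, m i ∈ M i) (k : Fin D → ZMod 3) :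
    WW m k ⊆ univ.biUnion P := biUnion_mono fun i _ => ((hM i).1 _ (hm i)).1 _

include hP hd

lemma val_inj {m m' : Fin D → ZMod 3 → Finset ℕ} (hm : ∀ i, m i ∈ M i) (hm' : ∀ i, m' i ∈ M i)
    {k k' : Fin D → ZMod 3} {u u' : ℕ} (hu : ∀ p ∈ univ.biUnion P, ¬ p ∣ u)
    (hu' : ∀ p ∈ univ.biUnion P, ¬ p ∣ u')
    (e : u * ∏ p ∈ WW m k, p = u' * ∏ p ∈ WW m' k', p) : u = u' ∧ m = m' ∧ k = k' := by
  have s1 := WW_sub hM hm k
  have s2 := WW_sub hM hm' k'
  have e1 : WW m k = WW m' k' := ext fun p => ⟨fun h => by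
    rw [← dvd_val hP s2 hu' (s1 h), ← e]; exact (dvd_val hP s1 hu (s1 h)).mpr h, fun h => by
    rw [← dvd_val hP s1 hu (s2 h), e]; exact (dvd_val hP s2 hu' (s2 h)).mpr h⟩
  have key : ∀ {m m' : Fin D → ZMod 3 → Finset ℕ} {k k' : Fin D → ZMod 3}, (∀ i, m i ∈ M i) →
      (∀ i, m' i ∈ M i) → WW m k = WW m' k' → ∀ i, m i (k i) ⊆ m' i (k' i) := by
    intro m m' k k' hm hm' e i p hp
    have : p ∈ WW m' k' := e ▸ mem_biUnion.mpr ⟨i, mem_univ _, hp⟩
    obtain ⟨j, -, hj⟩ := mem_biUnion.mp this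
    by_cases hij : i = j
    · rwa [hij]
    · exact absurd (((hM j).1 _ (hm' j)).1 _ hj)
        (disjoint_left.mp (hd i j hij) (((hM i).1 _ (hm i)).1 _ hp))
  have e2 : ∀ i, m i (k i) = m' i (k' i) := fun i =>
    Subset.antisymm (key hm hm' e1 i) (key hm' hm e1.symm i)
  have e3 : m = m' := funext fun i => (hM i).2 _ (hm i) _ (hm' i) _ _ (e2 i)
  subst e3
  rw [← e1] at e
  exact ⟨Nat.eq_of_mul_eq_mul_right (prod_pos fun p hp => (hP p (s1 hp)).pos) e, rfl,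
    funext fun i => ((hM i).1 _ (hm i)).2.1 _ _ (e2 i)⟩

lemma fibre {δ : ℝ} (hδ : 0 < δ) (hD : cornersTheoremBound δ ≤ 3 ^ D) {A : Finset ℕ} (hA : Free A)
    {m : Fin D → ZMod 3 → Finset ℕ} (hm : ∀ i, m i ∈ M i) {u : ℕ}
    (hu : ∀ p ∈ univ.biUnion P, ¬ p ∣ u) :
    ((univ.filter fun k => u * ∏ p ∈ WW m k, p ∈ A).card : ℝ) ≤ δ * 3 ^ D := by
  by_contra hn
  have c3 : Fintype.card (Fin D → ZMod 3) = 3 ^ D := by simp
  refine roth_3ap_theorem δ hδ (by rwa [c3]) _ (by rw [c3]; push_cast; exact (not_le.mp hn).le) ?_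
  intro a ha b hb c hc e
  by_contra hab
  have z := fun i => z3 (a i) (b i) (c i) (congrFun e i)
  have sub : ∀ x y w : Fin D → ZMod 3, (∀ i, x i = y i → w i = x i) → WW m w ⊆ WW m x ∪ WW m y := by
    intro x y w h p hp
    obtain ⟨i, -, hi⟩ := mem_biUnion.mp hp
    by_cases hxy : x i = y i
    · exact mem_union_left _ (mem_biUnion.mpr ⟨i, mem_univ _, h i hxy ▸ hi⟩)
    · rcases mem_union.mp (((hM i).1 _ (hm i)).2.2.1 _ _ _ hxy hi) with h | h
      exacts [mem_union_left _ (mem_biUnion.mpr ⟨i, mem_univ _, h⟩),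
        mem_union_right _ (mem_biUnion.mpr ⟨i, mem_univ _, h⟩)]
  have s1 := sub a b c fun i => (z i).1
  have s2 := sub b c a fun i => (z i).2.1
  have s3 := sub a c b fun i => (z i).2.2
  have l : ∀ x y, Nat.lcm (u * ∏ p ∈ WW m x, p) (u * ∏ p ∈ WW m y, p) =
      u * ∏ p ∈ WW m x ∪ WW m y, p := fun x y => by
    rw [Nat.lcm_mul_left, lcm_prod fun p hp => hP p
      (union_subset (WW_sub hM hm x) (WW_sub hM hm y) hp)]
  refine hA ⟨_, (mem_filter.mp ha).2, _, (mem_filter.mp hb).2, _, (mem_filter.mp hc).2,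
    fun h => hab (val_inj hP hd hM hm hm hu hu h).2.2,
    fun h => hab (funext fun i => (z i).2.1 (congrFun (val_inj hP hd hM hm hm hu hu h).2.2 i)),
    fun h => hab (funext fun i => ((z i).2.2 (congrFun (val_inj hP hd hM hm hm hu hu h).2.2 i)).symm),
    ?_, ?_⟩ <;> rw [l, l] <;> congr 2
  · exact Subset.antisymm (union_subset s2 subset_union_left) (union_subset subset_union_right s1)
  · exact Subset.antisymm (union_subset subset_union_left s3) (union_subset subset_union_left s1)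

lemma cov_count {δ : ℝ} (hδ : 0 < δ) (hD : cornersTheoremBound δ ≤ 3 ^ D) (hκ : 0 ≤ κ)
    (hκ3 : κ ^ D ≤ 3) {N : ℕ} {A : Finset ℕ} (hA : Free A) (hAN : A ⊆ Icc 1 N) :
    ((A.filter fun a => (∀ i, unc (M i) ((P i).filter (· ∣ a)) = 0) ∧
      ∀ p ∈ univ.biUnion P, ¬ p ^ 2 ∣ a).card : ℝ) ≤ δ * (3 * N) := by
  classical
  set I := (range (N + 1) ×ˢ Fintype.piFinset M).filter fun z => 0 < z.1 ∧
    (∀ p ∈ univ.biUnion P, ¬ p ∣ z.1) ∧ ∃ k, z.1 * ∏ p ∈ WW z.2 k, p ≤ N with hI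
  have mI : ∀ z ∈ I, (∀ i, z.2 i ∈ M i) ∧ 0 < z.1 ∧ (∀ p ∈ univ.biUnion P, ¬ p ∣ z.1) ∧
      ∃ k, z.1 * ∏ p ∈ WW z.2 k, p ≤ N := fun z hz =>
    ⟨Fintype.mem_piFinset.mp (mem_product.mp (mem_filter.mp hz).1).2, (mem_filter.mp hz).2⟩
  have h1 : (I ×ˢ (univ : Finset (Fin D → ZMod 3))).card ≤ (Icc 1 (3 * N)).card := by
    refine card_le_card_of_injOn (fun z => z.1.1 * ∏ p ∈ WW z.1.2 z.2, p) (fun z hz => ?_)
      (fun z hz w hw e => ?_)
    · obtain ⟨a1, a2, -, k, a3⟩ := mI _ (mem_product.mp hz).1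
      refine mem_coe.mpr (mem_Icc.mpr ⟨Nat.mul_pos a2
        (prod_pos fun p hp => (hP p (WW_sub hM a1 _ hp)).pos), ?_⟩)
      have pb : ∀ k, ∏ p ∈ WW z.1.2 k, (p : ℝ) = ∏ i, ∏ p ∈ z.1.2 i (k i), (p : ℝ) := fun k =>
        prod_biUnion fun i _ j _ hij => (hd i j hij).mono (((hM i).1 _ (a1 i)).1 _)
          (((hM j).1 _ (a1 j)).1 _)
      have b1 : ∏ p ∈ WW z.1.2 z.2, (p : ℝ) ≤ κ ^ D * ∏ p ∈ WW z.1.2 k, (p : ℝ) := by
        rw [pb, pb]
        refine (prod_le_prod (fun _ _ => by positivity)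
          fun i _ => ((hM i).1 _ (a1 i)).2.2.2 _ (k i)).trans (le_of_eq ?_)
        simp [prod_mul_distrib]
      have b2 : (z.1.1 : ℝ) * ∏ p ∈ WW z.1.2 k, (p : ℝ) ≤ N := by
        have := (Nat.cast_le (α := ℝ)).mpr a3
        push_cast at this
        exact this
      have b3 : (z.1.1 : ℝ) * ∏ p ∈ WW z.1.2 z.2, (p : ℝ) ≤ 3 * N :=
        calc _ ≤ z.1.1 * (3 * ∏ p ∈ WW z.1.2 k, (p : ℝ)) := by gcongr; exact b1.trans (by gcongr)
          _ ≤ _ := by linarith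
      refine (Nat.cast_le (α := ℝ)).mp ?_
      push_cast
      exact b3
    · obtain ⟨a1, -, a2, -⟩ := mI _ (mem_product.mp hz).1
      obtain ⟨b1, -, b2, -⟩ := mI _ (mem_product.mp hw).1
      obtain ⟨e1, e2, e3⟩ := val_inj hP hd hM a1 b1 a2 b2 e
      exact Prod.ext (Prod.ext e1 e2) e3
  have h2 : (I.card : ℝ) * 3 ^ D ≤ 3 * N := by
    rw [card_product, card_univ, Nat.card_Icc] at h1
    simp only [Fintype.card_pi, ZMod.card, prod_const, card_univ, Fintype.card_fin,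
      Nat.add_sub_cancel] at h1
    exact_mod_cast h1
  have h3 : (A.filter fun a => (∀ i, unc (M i) ((P i).filter (· ∣ a)) = 0) ∧
      ∀ p ∈ univ.biUnion P, ¬ p ^ 2 ∣ a) ⊆ I.biUnion fun z =>
        (univ.filter fun k => z.1 * ∏ p ∈ WW z.2 k, p ∈ A).image
          fun k => z.1 * ∏ p ∈ WW z.2 k, p := by
    intro a ha
    obtain ⟨a1, a2, a3⟩ := mem_filter.mp ha
    obtain ⟨a4, a5⟩ := mem_Icc.mp (hAN a1)
    have : ∀ i, ∃ m ∈ M i, ∃ k, m k = (P i).filter (· ∣ a) := fun i => by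
      by_contra hn
      have := a2 i
      rw [unc, if_neg hn] at this
      exact one_ne_zero this
    choose m hm k hk using this
    have mW : ∀ p, p ∈ WW m k ↔ p ∈ univ.biUnion P ∧ p ∣ a := fun p => by
      simp only [WW, hk, mem_biUnion, mem_filter, mem_univ, true_and, exists_and_right]
    obtain ⟨u, hu⟩ : ∏ p ∈ WW m k, p ∣ a :=
      prod_primes_dvd _ (fun p hp => (hP p ((mW p).mp hp).1).prime) fun p hp => ((mW p).mp hp).2
    rw [mul_comm] at hu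
    have u0 : 0 < u := Nat.pos_of_ne_zero fun e => by rw [e, zero_mul] at hu; omega
    refine mem_biUnion.mpr ⟨(u, m), mem_filter.mpr ⟨mem_product.mpr ⟨mem_range.mpr ?_,
      Fintype.mem_piFinset.mpr hm⟩, u0, fun p hp h => a3 p hp ?_, k, hu ▸ a5⟩,
      mem_image.mpr ⟨k, mem_filter.mpr ⟨mem_univ _, hu ▸ a1⟩, hu.symm⟩⟩
    · have := Nat.le_of_dvd a4 (Dvd.intro _ hu.symm)
      dsimp only; omega
    · rw [hu, sq]
      exact mul_dvd_mul h (dvd_prod_of_mem _ ((mW p).mpr ⟨hp, hu ▸ h.mul_right _⟩))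
  calc _ ≤ ((∑ z ∈ I, (univ.filter fun k => z.1 * ∏ p ∈ WW z.2 k, p ∈ A).card : ℕ) : ℝ) := by
        exact_mod_cast (card_le_card h3).trans (card_biUnion_le.trans
          (sum_le_sum fun z _ => card_image_le))
    _ ≤ ∑ z ∈ I, δ * 3 ^ D := by
        rw [Nat.cast_sum]
        exact sum_le_sum fun z hz => fibre hP hd hM hδ hD hA (mI z hz).1 (mI z hz).2.2.1
    _ ≤ _ := by rw [sum_const, nsmul_eq_mul]; nlinarith

end fin

theorem final (h : ∀ κ : ℝ, 1 < κ → κ ≤ 2 → ∀ β : ℝ, 0 < β → ∀ Y : ℕ,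
    ∃ P : Finset ℕ, (∀ p ∈ P, p.Prime ∧ Y < p) ∧ Good κ P β) (ε : ℝ) (hε : 0 < ε) :
    ∃ N₀ : ℕ, ∀ N : ℕ, N₀ ≤ N → ∀ A : Finset ℕ, A ⊆ Icc 1 N → ε * (N : ℝ) ≤ (A.card : ℝ) →
      ¬ Free A := by
  classical
  obtain ⟨D, D0, hD⟩ : ∃ D, 0 < D ∧ cornersTheoremBound (ε / 12) ≤ 3 ^ D :=
    ⟨_ + 1, Nat.succ_pos _, (Nat.le_succ _).trans (Nat.lt_pow_self (by norm_num)).le⟩
  have D1 : (0 : ℝ) < D := by exact_mod_cast D0
  choose F F1 M M1 M2 using h (1 + 1 / D) (by simpa using D1) (by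
    have : (1 : ℝ) / D ≤ 1 := (div_le_one D1).mpr (by exact_mod_cast D0)
    linarith) (ε / (4 * D)) (by positivity)
  obtain ⟨Y, hY⟩ := exists_nat_gt (4 / ε)
  have Y0 : (0 : ℝ) < Y := lt_trans (by positivity) hY
  let y : ℕ → ℕ := fun n => Nat.rec Y (fun _ z => z + (F z).sup id) n
  have ys : ∀ n, y (n + 1) = y n + (F (y n)).sup id := fun n => rfl
  have ym : Monotone y := monotone_nat_of_le_succ fun n => by rw [ys]; omega
  have dj : ∀ i j, i < j → Disjoint (F (y i)) (F (y j)) := fun i j hij =>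
    disjoint_left.mpr fun p hp hq => by
      have a1 := (F1 _ p hq).2
      have a2 : id p ≤ (F (y i)).sup id := le_sup hp
      have a3 := ym (show i + 1 ≤ j from hij)
      rw [ys] at a3
      simp only [id] at a2
      omega
  set P : Fin D → Finset ℕ := fun i => F (y i) with hP
  have pP : ∀ p ∈ univ.biUnion P, p.Prime ∧ Y < p := fun p hp => by
    obtain ⟨i, -, hi⟩ := mem_biUnion.mp hp
    exact ⟨(F1 _ p hi).1, lt_of_le_of_lt (ym (Nat.zero_le i)) (F1 _ p hi).2⟩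
  obtain ⟨N₀, hN₀⟩ := exists_nat_gt ((∑ i, 2 * ((∏ p ∈ P i, p : ℕ) : ℝ)) * 4 / ε)
  refine ⟨N₀, fun N hN A hA hc hf => ?_⟩
  have c1 := cov_count (P := P) (M := fun i => M (y i)) (fun p hp => (pP p hp).1)
    (fun i j hij => by
      rcases lt_or_gt_of_ne hij with h | h
      exacts [dj _ _ h, (dj _ _ h).symm]) (fun i => M1 _) (by positivity : 0 < ε / 12) hD
    (by positivity) (by
      have := Real.one_add_inv_pow_le_exp (n := D)
      rw [one_div]
      linarith [Real.exp_one_lt_d9]) hf hA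
  have c2 : ∀ i : Fin D, ∑ a ∈ A, unc (M (y i)) ((P i).filter (· ∣ a)) ≤
      N * (ε / (4 * D)) + 2 * (∏ p ∈ P i, p : ℕ) := fun i => by
    refine le_trans ?_ ((dens (P i) (fun p hp => (F1 _ p hp).1) (unc (M (y i)))
      (fun S => by unfold unc; split_ifs <;> norm_num) N).trans (by gcongr; exact M2 _))
    refine (sum_le_sum_of_subset_of_nonneg hA fun _ _ _ => unc_nonneg _ _).trans (le_of_eq ?_)
    rw [← Ico_add_one_right_eq_Icc, sum_Ico_eq_sum_range, Nat.add_sub_cancel]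
  have c3 : ∑ p ∈ univ.biUnion P, ∑ a ∈ A, (if p ^ 2 ∣ a then (1 : ℝ) else 0) ≤ N * (ε / 4) := by
    calc _ ≤ ∑ p ∈ univ.biUnion P, N * ((p : ℝ) ^ 2)⁻¹ := sum_le_sum fun p _ => by
          rw [sum_boole, ← div_eq_mul_inv, ← Nat.cast_pow]
          refine le_trans ?_ Nat.cast_div_le
          rw [← Nat.Ioc_filter_dvd_card_eq_div]
          exact_mod_cast card_le_card (filter_subset_filter _ hA)
      _ ≤ N * ∑ p ∈ Ioc Y (Y + (univ.biUnion P).sup id), ((p : ℝ) ^ 2)⁻¹ := by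
          rw [← mul_sum]
          gcongr
          intro p hp
          have : id p ≤ (univ.biUnion P).sup id := le_sup hp
          exact mem_Ioc.mpr ⟨(pP p hp).2, by simp only [id] at this; omega⟩
      _ ≤ _ := by
          gcongr
          refine (sum_Ioc_inv_sq_le_sub (by exact_mod_cast Y0.ne') (Nat.le_add_right _ _)).trans ?_
          rw [div_lt_iff₀ hε] at hY
          refine (sub_le_self _ (by positivity)).trans ?_
          rw [inv_eq_one_div, div_le_div_iff₀ Y0 four_pos]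
          linarith
  have c4 : (A.card : ℝ) ≤ ∑ a ∈ A, ((if (∀ i : Fin D, unc (M (y i)) ((P i).filter (· ∣ a)) = 0) ∧
      ∀ p ∈ univ.biUnion P, ¬ p ^ 2 ∣ a then (1 : ℝ) else 0) +
      ∑ i : Fin D, unc (M (y i)) ((P i).filter (· ∣ a)) +
      ∑ p ∈ univ.biUnion P, if p ^ 2 ∣ a then (1 : ℝ) else 0) := by
    rw [card_eq_sum_ones, Nat.cast_sum]
    refine sum_le_sum fun a _ => ?_
    have n1 : 0 ≤ ∑ i : Fin D, unc (M (y i)) ((P i).filter (· ∣ a)) :=
      sum_nonneg fun _ _ => unc_nonneg _ _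
    have n2 : 0 ≤ ∑ p ∈ univ.biUnion P, if p ^ 2 ∣ a then (1 : ℝ) else 0 := by positivity
    rw [Nat.cast_one]
    split_ifs with hc
    · linarith
    · rcases not_and_or.mp hc with hc | hc <;> push Not at hc
      · obtain ⟨i, hi⟩ := hc
        have := single_le_sum (f := fun i : Fin D => unc (M (y i)) ((P i).filter (· ∣ a)))
          (fun _ _ => unc_nonneg _ _) (mem_univ i)
        have e : unc (M (y i)) ((P i).filter (· ∣ a)) = 1 := by
          unfold unc at hi ⊢; split_ifs at hi ⊢ <;> simp_all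
        linarith
      · obtain ⟨p, hp, hi⟩ := hc
        have := single_le_sum (f := fun p => if p ^ 2 ∣ a then (1 : ℝ) else 0)
          (fun _ _ => by positivity) hp
        rw [if_pos hi] at this
        linarith
  rw [sum_add_distrib, sum_add_distrib, sum_boole, sum_comm, sum_comm (s := A)] at c4
  have c5 := sum_le_sum fun i (_ : i ∈ univ) => c2 i
  rw [sum_add_distrib, sum_const, card_univ, Fintype.card_fin, nsmul_eq_mul,
    show (D : ℝ) * (N * (ε / (4 * D))) = N * (ε / 4) by field_simp] at c5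
  rw [div_lt_iff₀ hε] at hN₀
  have : (N₀ : ℝ) * ε ≤ N * ε := by gcongr
  linarith

end Pool.Agent.H.MP_22cd7c_nt
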