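import Pool.Agent.H.MP_22cd7c_nt.A

set_option autoImplicit false

namespace Pool.Agent.H.MP_22cd7c_nt
open Finset

variable {ι : Type} [Fintype ι] [DecidableEq ι]

/-- average over uniform three-colourings -/
noncomputable def Ec (F : (ι → Fin 3) → ℝ) : ℝ := ∑ c, (1 / 3) ^ Fintype.card ι * F c

lemma Ec_prod (a : ι → Fin 3 → ℝ) : Ec (fun c => ∏ i, a i (c i)) = ∏ i, (∑ x, a i x) / 3 := by
  rw [Ec, ← mul_sum, ← Fintype.prod_sum, prod_div_distrib, prod_const, card_univ, one_div, inv_pow,
    div_eq_inv_mul]

lemma Ec_mono {F G : (ι → Fin 3) → ℝ} (h : ∀ c, F c ≤ G c) : Ec F ≤ Ec G :=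
  sum_le_sum fun c _ => mul_le_mul_of_nonneg_left (h c) (by positivity)

lemma Ec_mul (x : ℝ) (F : (ι → Fin 3) → ℝ) : Ec (fun c => x * F c) = x * Ec F := by
  simp only [Ec, mul_sum]; exact sum_congr rfl fun _ _ => by ring

lemma Ec_const (x : ℝ) : Ec (fun _ : ι → Fin 3 => x) = x := by
  have := Ec_prod (ι := ι) fun _ _ => 1
  simp only [prod_const_one, sum_const, card_univ, Fintype.card_fin] at this
  rw [← mul_one x, Ec_mul, this]; simp

lemma Ec_nonneg {F : (ι → Fin 3) → ℝ} (h : ∀ c, 0 ≤ F c) : 0 ≤ Ec F :=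
  (Ec_const 0).ge.trans (Ec_mono h)

lemma Ec_add (F G : (ι → Fin 3) → ℝ) : Ec (fun c => F c + G c) = Ec F + Ec G := by
  simp only [Ec, mul_add, sum_add_distrib]

lemma Ec_sum {β : Type*} (s : Finset β) (F : β → (ι → Fin 3) → ℝ) :
    Ec (fun c => ∑ b ∈ s, F b c) = ∑ b ∈ s, Ec (F b) := by
  simp only [Ec, mul_sum]; exact sum_comm

lemma E_Ec (r : ι → ℝ) (F : Finset ι → (ι → Fin 3) → ℝ) :
    E r univ (fun S => Ec (F S)) = Ec fun c => E r univ fun S => F S c := by
  unfold Ec; rw [E_sum]; simp only [E_mul]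

lemma agree (T : Finset ι) (c : ι → Fin 3) :
    Ec (fun c' => if ∀ i ∈ T, c i = c' i then 1 else 0) = (1 / 3) ^ T.card := by
  have := Ec_prod fun i x => if i ∈ T → c i = x then (1 : ℝ) else 0
  simp only [prod_boole, mem_univ, forall_const] at this
  rw [this, ← prod_const, ← univ_inter T, ← prod_ite_mem]
  refine prod_congr rfl fun i _ => ?_
  by_cases h : i ∈ T <;> simp [h]

/-- signs of the three colours -/
def sg3 : Fin 3 → ℝ := ![0, 1, -1]

/-- signed logarithmic size -/
noncomputable def DD (l : ι → ℝ) (S : Finset ι) (c : ι → Fin 3) : ℝ := ∑ i ∈ S, sg3 (c i) * l i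

lemma sg3_ne (x y : Fin 3) (h : x ≠ y) : 1 ≤ |sg3 x - sg3 y| := by
  fin_cases x <;> fin_cases y <;> simp [sg3] at h ⊢ <;> norm_num

lemma theta {r l : ι → ℝ} {lev : ι → ℕ} {J : ℕ} {g ζ : ℕ → ℝ} {h : ℝ}
    (hr : ∀ i ∈ univ, 0 ≤ r i ∧ r i ≤ 1 / 2) (hlev : ∀ i, lev i < J) (hg : ∀ j, 0 ≤ g j)
    (hζ : ∀ j u, ∑ i ∈ univ.filter (lev · = j), (if |l i - u| ≤ h then r i else 0) ≤ ζ j)
    (good : Finset ι → Prop) [DecidablePred good]
    (hgood : ∀ S, good S → ∀ j ≤ J, (1 / 3 : ℝ) ^ (S.filter (lev · < j)).card ≤ g j) :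
    E r univ (fun S => Ec fun c => Ec fun c' =>
      if good S ∧ |DD l S c - DD l S c'| ≤ h then 1 else 0) ≤
      g J + ∑ j ∈ range J, 18 * ζ j * g j := by
  obtain ⟨B, hB⟩ : ∃ B : ℕ → (ι → Fin 3) → (ι → Fin 3) → Finset ι → ℝ, ∀ j c c' S, B j c c' S =
      if (1 / 3 : ℝ) ^ (S.filter (lev · < j)).card ≤ g j then
        (if ∀ i ∈ S.filter (lev · < j), c i = c' i then 1 else 0) else 0 := ⟨_, fun _ _ _ _ => rfl⟩
  have B0 : ∀ j c c' S, 0 ≤ B j c c' S := fun j c c' S => by rw [hB]; positivity
  have B1 : ∀ j, (Ec fun c => Ec fun c' => E r univ (B j c c')) ≤ g j := fun j => by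
    simp only [← E_Ec]
    refine (E_mono hr fun S _ => (Ec_mono fun c => ?_).trans (Ec_const _).le).trans (E_const _).le
    simp only [hB]
    split_ifs with hc
    · rwa [agree]
    · rw [Ec_const]; exact hg j
  have z0 : ∀ j, 0 ≤ ζ j := fun j => le_trans (sum_nonneg fun i _ => by
    have := (hr i (mem_univ _)).1; positivity) (hζ j 0)
  have key : ∀ c c', E r univ (fun S => if good S ∧ |DD l S c - DD l S c'| ≤ h then 1 else 0) ≤
      E r univ (B J c c') + ∑ j ∈ range J, 18 * ζ j * E r univ (B j c c') := by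
    intro c c'
    obtain ⟨Φ, hΦ⟩ : ∃ Φ : ι → Finset ι → ℝ, ∀ i S, Φ i S = if c i ≠ c' i ∧
        |(sg3 (c i) - sg3 (c' i)) * l i + (DD l S c - DD l S c')| ≤ h then B (lev i) c c' S else 0 :=
      ⟨_, fun _ _ => rfl⟩
    have Φ0 : ∀ i S, 0 ≤ Φ i S := fun i S => by rw [hΦ]; split_ifs; exacts [B0 _ _ _ _, le_rfl]
    calc _ ≤ E r univ (fun S => B J c c' S + ∑ i, if i ∈ S then Φ i (S.erase i) else 0) := by
          refine E_mono hr fun S _ => ?_
          have n1 : ∀ i ∈ univ, 0 ≤ if i ∈ S then Φ i (S.erase i) else 0 := fun i _ => by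
            split_ifs; exacts [Φ0 _ _, le_rfl]
          have n2 := sum_nonneg n1
          have n3 := B0 J c c' S
          split_ifs with hc
          swap
          · linarith
          rcases (S.filter fun i => c i ≠ c' i).eq_empty_or_nonempty with he | he
          · rw [hB, if_pos (hgood S hc.1 J le_rfl), if_pos]
            · linarith
            · intro i hi
              simpa using filter_eq_empty_iff.mp he (mem_filter.mp hi).1
          · obtain ⟨i, hi, hmin⟩ := exists_min_image _ lev he
            obtain ⟨i1, i2⟩ := mem_filter.mp hi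
            have := single_le_sum n1 (mem_univ i)
            have e : (S.erase i).filter (lev · < lev i) = S.filter (lev · < lev i) := by
              rw [filter_erase, erase_eq_of_notMem (by simp)]
            have e' : (sg3 (c i) - sg3 (c' i)) * l i + (DD l (S.erase i) c - DD l (S.erase i) c') =
                DD l S c - DD l S c' := by
              rw [DD, DD, DD, DD, ← add_sum_erase _ _ i1, ← add_sum_erase _ _ i1]
              ring
            rw [if_pos i1, hΦ, e', if_pos ⟨i2, hc.2⟩, hB, e, if_pos (hgood S hc.1 _ (hlev i).le),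
              if_pos] at this
            · linarith
            · intro k hk
              by_contra hn
              exact absurd (mem_filter.mp hk).2
                (not_lt.mpr (hmin k (mem_filter.mpr ⟨(mem_filter.mp hk).1, hn⟩)))
      _ ≤ E r univ (B J c c') + E r univ (fun S => ∑ i, 2 * r i * Φ i S) := by
          rw [E_add, E_sum, E_sum]
          gcongr with i
          rw [E_mul]
          exact mecke hr (mem_univ i) (Φ0 i)
      _ ≤ _ := by
          simp only [← E_mul]
          rw [← E_sum]
          gcongr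
          refine E_mono hr fun S _ => ?_
          rw [← sum_fiberwise_of_maps_to (g := lev) (t := range J) fun i _ => mem_range.mpr (hlev i)]
          refine sum_le_sum fun j _ => ?_
          set R := DD l S c - DD l S c'
          calc _ ≤ ∑ i ∈ univ.filter (lev · = j), 2 * B j c c' S * ∑ z : Fin 3 × Fin 3,
                  if |l i - -R / (sg3 z.1 - sg3 z.2)| ≤ h then r i else 0 := by
                refine sum_le_sum fun i hi => ?_
                have r0 := (hr i (mem_univ _)).1
                have b0 := B0 j c c' S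
                rw [hΦ, (mem_filter.mp hi).2]
                split_ifs with hc
                swap
                · rw [mul_zero]; positivity
                have := single_le_sum (f := fun z : Fin 3 × Fin 3 =>
                  if |l i - -R / (sg3 z.1 - sg3 z.2)| ≤ h then r i else 0)
                  (fun _ _ => by positivity) (mem_univ (c i, c' i))
                have e1 := sg3_ne _ _ hc.1
                have e2 : sg3 (c i) - sg3 (c' i) ≠ 0 := abs_pos.mp (by linarith)
                rw [if_pos] at this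
                · nlinarith
                · rw [show l i - -R / (sg3 (c i) - sg3 (c' i)) = ((sg3 (c i) - sg3 (c' i)) * l i + R) /
                    (sg3 (c i) - sg3 (c' i)) by field_simp; ring, abs_div]
                  exact (div_le_self (abs_nonneg _) e1).trans hc.2
            _ ≤ 2 * B j c c' S * ∑ z : Fin 3 × Fin 3, ζ j := by
                rw [← mul_sum, sum_comm]
                have b0 := B0 j c c' S
                gcongr with z
                exact hζ j _
            _ = _ := by simp; ring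
  simp only [E_Ec]
  refine (Ec_mono fun c => Ec_mono fun c' => key c c').trans ?_
  simp only [Ec_add, Ec_sum, Ec_mul]
  gcongr with j
  exacts [B1 J, by have := z0 j; positivity, B1 j]

lemma chern {r : ι → ℝ} (hr : ∀ i ∈ univ, 0 ≤ r i ∧ r i ≤ 1 / 2) (U : ι → Prop) [DecidablePred U]
    {τ : ℝ} (hτ : 0 ≤ τ) (m : ℝ) :
    E r univ (fun S => if ((S.filter U).card : ℝ) < m then 1 else 0) ≤
      Real.exp (τ * m - (1 - Real.exp (-τ)) * ∑ i ∈ univ.filter U, r i) := by
  refine (E_mono hr (g := fun S => Real.exp (τ * m) *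
    ∏ i, if i ∈ S then (if U i then Real.exp (-τ) else 1) else 1) fun S _ => ?_).trans ?_
  · rw [prod_ite_mem, univ_inter, ← prod_filter, prod_const, ← Real.exp_nat_mul, ← Real.exp_add]
    split_ifs with h
    · exact Real.one_le_exp (by nlinarith)
    · positivity
  · rw [E_mul, E_prod, sub_eq_add_neg (τ * m), Real.exp_add, mul_sum, ← sum_neg_distrib, sum_filter,
      Real.exp_sum]
    gcongr with i
    · intro i _
      have := hr i (mem_univ _)
      have : 0 ≤ 1 - r i := by linarith
      have := (hr i (mem_univ _)).1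
      positivity
    · split_ifs
      · linarith [Real.add_one_le_exp (-((1 - Real.exp (-τ)) * r i))]
      · simp

lemma markov {r l : ι → ℝ} (hr : ∀ i ∈ univ, 0 ≤ r i ∧ r i ≤ 1 / 2) (hl : ∀ i, 0 ≤ l i) {Λ : ℝ}
    (hΛ : 0 < Λ) :
    E r univ (fun S => if Λ < ∑ i ∈ S, l i then 1 else 0) ≤ Λ⁻¹ * ∑ i, 2 * r i * l i := by
  refine (E_mono hr (g := fun S => Λ⁻¹ * ∑ i, if i ∈ S then l i else 0) fun S _ => ?_).trans ?_
  · rw [sum_ite_mem, univ_inter]
    split_ifs with h
    · rw [inv_mul_eq_div, one_le_div hΛ]; exact h.le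
    · exact mul_nonneg (by positivity) (sum_nonneg fun i _ => hl i)
  · rw [E_mul, E_sum]
    gcongr with i
    exact (mecke hr (mem_univ i) (f := fun _ => l i) fun _ => hl i).trans (by rw [E_const])

/-- weights of the five states -/
noncomputable def w5 (r : ℝ) (a : Fin 5) : ℝ := if a = 0 then 1 - 4 * r / 3 else r / 3

/-- colouring of a subset as a four-state function -/
def merge (S : Finset ι) (c : ι → Fin 3) : ι → Fin 4 := fun i => if i ∈ S then (c i).succ else 0

lemma ind_eq (x : ι → Fin 4) (F : (ι → Fin 4) → ℝ) :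
    F x = ∑ y, F y * ∏ i, if x i = y i then 1 else 0 := by
  simp only [prod_boole, mem_univ, forall_const, ← funext_iff]
  simp

lemma push (r : ι → ℝ) (φ : Fin 5 → Fin 4)
    (hφ : ∀ t y, ∑ a, w5 t a * (if φ a = y then 1 else 0) = if y = 0 then 1 - t else t / 3)
    (F : (ι → Fin 4) → ℝ) : ∑ a : ι → Fin 5, (∏ i, w5 (r i) (a i)) * F (fun i => φ (a i)) =
      E r univ fun S => Ec fun c => F (merge S c) := by
  trans ∑ y, F y * ∏ i, if y i = 0 then 1 - r i else r i / 3
  · simp only [← hφ, Fintype.prod_sum, mul_sum, prod_mul_distrib]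
    rw [sum_comm]
    refine sum_congr rfl fun a _ => ?_
    rw [ind_eq _ F, mul_sum]
    exact sum_congr rfl fun _ _ => by ring
  · symm
    rw [E_congr (g := fun S => ∑ y, F y * ∏ i, if i ∈ S then (if y i = 0 then 0 else 1 / 3) else
      (if y i = 0 then 1 else 0)), E_sum]
    · refine sum_congr rfl fun y _ => ?_
      rw [E_mul, E_prod]
      congr 1
      exact prod_congr rfl fun i _ => by split_ifs <;> ring
    · intro S _
      simp only [ind_eq (merge S _) F]
      rw [Ec_sum]
      refine sum_congr rfl fun y _ => ?_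
      rw [Ec_mul]
      congr 1
      refine (Ec_prod fun i x => if (if i ∈ S then x.succ else 0) = y i then 1 else 0).trans
        (prod_congr rfl fun i _ => ?_)
      generalize y i = z
      rw [Fin.sum_univ_three]
      by_cases h : i ∈ S <;> fin_cases z <;> simp [h] <;> norm_num

end Pool.Agent.H.MP_22cd7c_nt
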