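import Pool.Agent.H.MP_22cd7c_nt.C

set_option autoImplicit false

namespace Pool.Agent.H.MP_22cd7c_nt
open Finset

lemma rc_nonneg (p : ℕ) : 0 ≤ rc p := by unfold rc; positivity

lemma pairs {Q : Finset ℕ} (hQ : ∀ p ∈ Q, p.Prime) {ρ : ℝ} (hρ : ρ ≤ ∏ q ∈ Q, (1 - rc q))
    {f : Finset ℕ → ℝ} (hf : ∀ S, 0 ≤ f S) :
    ρ * ∑ p ∈ Q, ∑ q ∈ Q, rc p * rc q * (if p ≠ q then f {p, q} else 0) ≤ 2 * E rc Q f := by
  have ok := rc_ok hQ
  have h1 : ρ * ∑ p ∈ Q, ∑ q ∈ Q, rc p * rc q * (if p < q then f {p, q} else 0) ≤ E rc Q f := by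
    rw [← sum_product', mul_sum]
    calc _ ≤ ∑ z ∈ (Q ×ˢ Q).filter fun z => z.1 < z.2, nu rc Q {z.1, z.2} * f {z.1, z.2} := by
          rw [sum_filter]
          refine sum_le_sum fun z hz => ?_
          split_ifs with h
          swap
          · simp
          rw [← mul_assoc]
          refine mul_le_mul_of_nonneg_right ?_ (hf _)
          have s : ({z.1, z.2} : Finset ℕ) ⊆ Q :=
            insert_subset (mem_product.mp hz).1 (singleton_subset_iff.mpr (mem_product.mp hz).2)
          rw [← prod_pair (f := rc) h.ne, ← inter_eq_right.mpr s, ← prod_ite_mem,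
            inter_eq_right.mpr s]
          refine (mul_le_mul_of_nonneg_right hρ (prod_nonneg fun p _ => by
            have := rc_nonneg p; positivity)).trans ?_
          rw [← prod_mul_distrib]
          refine prod_le_prod (fun p hp => ?_) fun p hp => ?_ <;> have := ok p hp <;>
            split_ifs <;> nlinarith
      _ = ∑ T ∈ ((Q ×ˢ Q).filter fun z => z.1 < z.2).image fun z => ({z.1, z.2} : Finset ℕ),
            nu rc Q T * f T := by
          rw [sum_image]
          intro z hz w hw e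
          have a1 := (mem_filter.mp hz).2
          have a2 := (mem_filter.mp hw).2
          have e1 : ∀ x, x = z.1 ∨ x = z.2 ↔ x = w.1 ∨ x = w.2 := fun x => by
            simpa using congrArg (x ∈ ·) e
          have := e1 z.1
          have := e1 z.2
          have := e1 w.1
          have := e1 w.2
          exact Prod.ext (by omega) (by omega)
      _ ≤ _ := sum_le_sum_of_subset_of_nonneg (fun T hT => by
          obtain ⟨z, hz, rfl⟩ := mem_image.mp hT
          have := mem_product.mp (mem_filter.mp hz).1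
          exact mem_powerset.mpr (insert_subset this.1 (singleton_subset_iff.mpr this.2)))
          fun T _ _ => mul_nonneg (nu_nonneg ok T) (hf T)
  have h2 : ∑ p ∈ Q, ∑ q ∈ Q, rc p * rc q * (if p ≠ q then f {p, q} else 0) =
      ∑ p ∈ Q, ∑ q ∈ Q, rc p * rc q * (if p < q then f {p, q} else 0) +
      ∑ p ∈ Q, ∑ q ∈ Q, rc q * rc p * (if q < p then f {q, p} else 0) := by
    rw [← sum_add_distrib]
    refine sum_congr rfl fun p _ => ?_
    rw [← sum_add_distrib]
    refine sum_congr rfl fun q _ => ?_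
    rcases lt_trichotomy p q with h | h | h
    · simp [h, h.ne, h.le]
    · simp [h]
    · simp [h, h.ne', h.le, pair_comm p q, mul_comm]
  rw [h2, sum_comm (f := fun p q => rc q * rc p * (if q < p then f {q, p} else 0))]; linarith

variable {ι : Type} [Fintype ι] [DecidableEq ι]

lemma Lbound {π : ι → ℕ} (hπ : Function.Injective π) {Q : Finset ℕ} (hP : ∀ i, (π i).Prime)
    (hQ : ∀ p ∈ Q, p.Prime) (hd : Disjoint (univ.image π) Q) (l : ι → ℝ) {ρ σ ζ Θ h t : ℝ}
    (hρ0 : 0 < ρ) (hρ : ρ ≤ ∏ q ∈ Q, (1 - rc q)) (hσ : ∑ q ∈ Q, rc q ≤ σ) (ht : 0 < t)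
    (hζ : ∀ u, ∑ q ∈ Q, rc q * (if |Real.log q - u| ≤ h then 1 else 0) ≤ ζ)
    (good : Finset ι → Prop) [DecidablePred good]
    (hΘ : E (fun i => rc (π i)) univ (fun S => Ec fun c => Ec fun c' =>
      if good S ∧ |DD l S c - DD l S c'| ≤ 2 * h then 1 else 0) ≤ Θ)
    {V : Finset ℕ → ℝ} (hV : ∀ S, V S = 0 ∨ V S = 1) :
    E (fun i => rc (π i)) univ (fun S => Ec fun c => ∑ p ∈ Q, ∑ q ∈ Q, rc p * rc q *
      (if p ≠ q ∧ good S ∧ |DD l S c + Real.log p - Real.log q| ≤ h then V (S.image π ∪ {p, q})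
        else 0)) ≤ t / ρ * E rc (univ.image π ∪ Q) V + σ * ζ * Θ / (2 * t) := by
  have ok : ∀ i ∈ univ, 0 ≤ rc (π i) ∧ rc (π i) ≤ 1 / 2 := fun i _ =>
    rc_ok (P := {π i}) (by simpa using hP i) _ (mem_singleton_self _)
  have V0 : ∀ S, 0 ≤ V S := fun S => by rcases hV S with h | h <;> rw [h]; norm_num
  have ζ0 : 0 ≤ ζ := le_trans (sum_nonneg fun q _ => by have := rc_nonneg q; positivity) (hζ 0)
  have σ0 : 0 ≤ σ := le_trans (sum_nonneg fun q _ => rc_nonneg q) hσ
  rw [E_union hd, E_image hπ, ← E_mul]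
  refine le_trans ?_ (add_le_add le_rfl (show σ * ζ / (2 * t) * _ ≤ _ from
    (mul_le_mul_of_nonneg_left hΘ (by positivity)).trans_eq (by ring)))
  rw [← E_mul, ← E_add]
  refine E_mono ok fun S _ => ?_
  obtain ⟨a, ha⟩ : ∃ a : ℕ → ℕ → (ι → Fin 3) → ℝ, ∀ p q c, a p q c =
      if good S ∧ |DD l S c + Real.log p - Real.log q| ≤ h then 1 else 0 := ⟨_, fun _ _ _ => rfl⟩
  obtain ⟨H, hH⟩ : ∃ H : (ι → Fin 3) → ℝ, ∀ c, H c = Ec fun c' =>
      if good S ∧ |DD l S c - DD l S c'| ≤ 2 * h then 1 else 0 := ⟨_, fun _ => rfl⟩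
  have H0 : ∀ c, 0 ≤ H c := fun c => by rw [hH]; exact Ec_nonneg fun _ => by positivity
  simp only [← hH]
  have h1 := pairs hQ hρ (f := fun T => V (S.image π ∪ T)) fun _ => V0 _
  have h2 : ∀ p q, Ec (a p q) ^ 2 ≤ Ec fun c => H c *
      if |Real.log q - (DD l S c + Real.log p)| ≤ h then 1 else 0 := fun p q => by
    rw [sq, mul_comm, ← Ec_mul]
    refine Ec_mono fun c => ?_
    rw [mul_comm, ← Ec_mul, mul_comm (H c), hH, ← Ec_mul]
    refine Ec_mono fun c' => ?_
    rw [ha, ha]
    by_cases b1 : good S ∧ |DD l S c + Real.log p - Real.log q| ≤ h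
    · by_cases b2 : good S ∧ |DD l S c' + Real.log p - Real.log q| ≤ h
      · have := abs_le.mp b1.2
        have := abs_le.mp b2.2
        rw [if_pos b1, if_pos b2, if_pos (abs_le.mpr ⟨by linarith, by linarith⟩),
          if_pos ⟨b1.1, abs_le.mpr ⟨by linarith, by linarith⟩⟩]
      · rw [if_neg b2, mul_zero]; positivity
    · rw [if_neg b1, zero_mul]; positivity
  have h3 : ∑ p ∈ Q, ∑ q ∈ Q, rc p * rc q * Ec (a p q) ^ 2 ≤ σ * ζ * Ec H := by
    calc _ ≤ Ec fun c => ∑ p ∈ Q, ∑ q ∈ Q, rc p * rc q * (H c *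
            if |Real.log q - (DD l S c + Real.log p)| ≤ h then 1 else 0) := by
          simp only [Ec_sum, Ec_mul (_ * _)]
          gcongr with p _ q
          exacts [mul_nonneg (rc_nonneg _) (rc_nonneg _), h2 p q]
      _ ≤ _ := by
          rw [← Ec_mul]
          refine Ec_mono fun c => ?_
          calc _ ≤ ∑ p ∈ Q, rc p * (ζ * H c) := sum_le_sum fun p _ => by
                have := mul_le_mul_of_nonneg_left (hζ (DD l S c + Real.log p))
                  (mul_nonneg (rc_nonneg p) (H0 c))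
                rw [mul_sum] at this
                exact (le_of_eq (sum_congr rfl fun _ _ => by ring)).trans (this.trans_eq (by ring))
            _ ≤ _ := by
                rw [← sum_mul, mul_assoc]
                exact mul_le_mul_of_nonneg_right hσ (mul_nonneg ζ0 (H0 c))
  calc _ ≤ ∑ p ∈ Q, ∑ q ∈ Q, (t / 2 * (rc p * rc q * (if p ≠ q then V (S.image π ∪ {p, q}) else 0)) +
          1 / (2 * t) * (rc p * rc q * Ec (a p q) ^ 2)) := by
        simp only [Ec_sum, Ec_mul (_ * _)]
        refine sum_le_sum fun p _ => sum_le_sum fun q _ => ?_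
        have e : (Ec fun c => if p ≠ q ∧ good S ∧ |DD l S c + Real.log p - Real.log q| ≤ h then
            V (S.image π ∪ {p, q}) else 0) =
            (if p ≠ q then V (S.image π ∪ {p, q}) else 0) * Ec (a p q) := by
          rw [← Ec_mul]
          refine congrArg _ (funext fun c => ?_)
          rw [ha]
          by_cases b : p ≠ q <;> simp [b]
        have x : ∀ x y : ℝ, (x = 0 ∨ x = 1) → x * y ≤ t / 2 * x + 1 / (2 * t) * y ^ 2 := by
          rintro x y (rfl | rfl)
          · simp only [zero_mul, mul_zero, zero_add]; positivity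
          · rw [← sub_nonneg, show t / 2 * 1 + 1 / (2 * t) * y ^ 2 - 1 * y = (t - y) ^ 2 / (2 * t) by
              field_simp; ring]
            positivity
        have := mul_le_mul_of_nonneg_left (x (if p ≠ q then V (S.image π ∪ {p, q}) else 0) (Ec (a p q))
          (by split_ifs; exacts [hV _, Or.inl rfl])) (mul_nonneg (rc_nonneg p) (rc_nonneg q))
        rw [e]; linarith
    _ ≤ _ := by
        simp only [sum_add_distrib, ← mul_sum]
        simp only [mul_sum] at h1 h3 ⊢
        simp only [← mul_sum] at h1 h3 ⊢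
        refine add_le_add ?_ ((mul_le_mul_of_nonneg_left h3 (by positivity)).trans_eq (by ring))
        rw [div_mul_eq_mul_div t ρ, le_div_iff₀ hρ0]
        nlinarith

end Pool.Agent.H.MP_22cd7c_nt
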