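import Pool.Agent.H.MP_22cd7c_nt.D

set_option autoImplicit false

namespace Pool.Agent.H.MP_22cd7c_nt
open Finset

lemma cover {P m0 m1 m2 : Finset ℕ} {h : ℝ} {V : Finset ℕ → ℝ} (hP : ∀ p ∈ P, p.Prime)
    (hV : ∀ m, Tri (Real.exp h) P m → ∃ k, V (m k) = 1) (hh : 0 ≤ h)
    (s0 : m0 ⊆ P) (s1 : m1 ⊆ P) (s2 : m2 ⊆ P) (n0 : m0 ≠ m1) (n1 : m0 ≠ m2) (n2 : m1 ≠ m2)
    (u0 : m0 ⊆ m1 ∪ m2) (u1 : m1 ⊆ m0 ∪ m2) (u2 : m2 ⊆ m0 ∪ m1)
    (c0 : |∑ p ∈ m0, Real.log p - ∑ p ∈ m1, Real.log p| ≤ h)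
    (c1 : |∑ p ∈ m0, Real.log p - ∑ p ∈ m2, Real.log p| ≤ h)
    (c2 : |∑ p ∈ m1, Real.log p - ∑ p ∈ m2, Real.log p| ≤ h) :
    V m0 = 1 ∨ V m1 = 1 ∨ V m2 = 1 := by
  have z : ∀ k : ZMod 3, k = 0 ∨ k = 1 ∨ k = 2 := by decide
  obtain ⟨m, rfl, rfl, rfl⟩ : ∃ m : ZMod 3 → Finset ℕ, m 0 = m0 ∧ m 1 = m1 ∧ m 2 = m2 :=
    ⟨![m0, m1, m2], rfl, rfl, rfl⟩
  have s : ∀ k, m k ⊆ P := fun k => by rcases z k with rfl | rfl | rfl <;> assumption
  have pe : ∀ k, ∏ p ∈ m k, (p : ℝ) = Real.exp (∑ p ∈ m k, Real.log p) := fun k => by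
    rw [Real.exp_sum]
    exact prod_congr rfl fun p hp => (Real.exp_log (by exact_mod_cast (hP p (s k hp)).pos)).symm
  refine (hV m ⟨s, fun k k' e => ?_, fun k k' k'' e => ?_, fun k k' => ?_⟩).elim fun k hk => by
    rcases z k with rfl | rfl | rfl <;> simp [hk]
  · rcases z k with rfl | rfl | rfl <;> rcases z k' with rfl | rfl | rfl <;> simp_all
  · rcases z k with rfl | rfl | rfl <;> rcases z k' with rfl | rfl | rfl <;>
      rcases z k'' with rfl | rfl | rfl <;> first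
        | exact absurd rfl e | exact subset_union_left | exact subset_union_right | assumption
        | (rw [union_comm]; assumption)
  · rw [pe, pe, ← Real.exp_add, Real.exp_le_exp]
    rw [abs_le] at c0 c1 c2
    rcases z k with rfl | rfl | rfl <;> rcases z k' with rfl | rfl | rfl <;> linarith

lemma tri_sum {Q : Finset ℕ} {ζ h : ℝ}
    (hζ : ∀ u, ∑ q ∈ Q, rc q * (if |Real.log q - u| ≤ h then 1 else 0) ≤ ζ)
    {K u : ℕ → ℕ → ℝ} {T : ℕ → ℕ → ℕ → ℝ} (hK : ∀ p q, 0 ≤ K p q)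
    (hT : ∀ p q s, T p q s ≤ K p q * if |Real.log s - u p q| ≤ h then 1 else 0) :
    ∑ p ∈ Q, ∑ q ∈ Q, ∑ s ∈ Q, rc p * rc q * rc s * T p q s ≤
      ζ * ∑ p ∈ Q, ∑ q ∈ Q, rc p * rc q * K p q := by
  simp only [mul_sum]
  refine sum_le_sum fun p _ => sum_le_sum fun q _ => ?_
  have n := mul_nonneg (rc_nonneg p) (rc_nonneg q)
  have := mul_le_mul_of_nonneg_left (hζ (u p q)) (mul_nonneg n (hK p q))
  rw [mul_sum, mul_comm _ ζ] at this
  refine le_trans (sum_le_sum fun s _ => ?_) this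
  exact (mul_le_mul_of_nonneg_left (hT p q s) (mul_nonneg n (rc_nonneg s))).trans_eq (by ring)

variable {ι : Type} [Fintype ι] [DecidableEq ι]

/-- support of a four-state function -/
def Sy (y : ι → Fin 4) : Finset ι := univ.filter (y · ≠ 0)

/-- signs of the four states -/
def sg4 : Fin 4 → ℝ := ![0, 0, 1, -1]

/-- signed size of a four-state function -/
noncomputable def Dy (l : ι → ℝ) (y : ι → Fin 4) : ℝ := ∑ i, sg4 (y i) * l i

lemma Sy_merge (S : Finset ι) (c : ι → Fin 3) : Sy (merge S c) = S := by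
  ext i; simp [Sy, merge]

lemma Dy_merge (l : ι → ℝ) (S : Finset ι) (c : ι → Fin 3) : Dy l (merge S c) = DD l S c := by
  rw [DD, ← univ_inter S, ← sum_ite_mem, univ_inter]
  refine sum_congr rfl fun i _ => ?_
  unfold merge
  generalize c i = x
  split_ifs
  · fin_cases x <;> simp [sg3, sg4]
  · simp [sg4]

/-- the three ways of forgetting a colour -/
def ph : Fin 3 → Fin 5 → Fin 4 := ![![0, 1, 2, 3, 0], ![0, 1, 2, 0, 3], ![0, 1, 0, 2, 3]]

lemma ph_ok (k : Fin 3) (t : ℝ) (y : Fin 4) :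
    ∑ a, w5 t a * (if ph k a = y then 1 else 0) = if y = 0 then 1 - t else t / 3 := by
  rw [Fin.sum_univ_five]
  fin_cases k <;> fin_cases y <;> simp [ph, w5] <;> ring

/-- size of one colour class -/
noncomputable def XX (l : ι → ℝ) (a : ι → Fin 5) (k : Fin 5) : ℝ := ∑ i, if a i = k then l i else 0

lemma XX_eq (l : ι → ℝ) (a : ι → Fin 5) :
    (Dy l (fun i => ph 0 (a i)) = XX l a 2 - XX l a 3 ∧
      Dy l (fun i => ph 1 (a i)) = XX l a 2 - XX l a 4 ∧
      Dy l (fun i => ph 2 (a i)) = XX l a 3 - XX l a 4) ∧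
    ∑ i ∈ Sy (fun i => ph 0 (a i)), l i = XX l a 1 + XX l a 2 + XX l a 3 ∧
      ∑ i ∈ Sy (fun i => ph 1 (a i)), l i = XX l a 1 + XX l a 2 + XX l a 4 ∧
      ∑ i ∈ Sy (fun i => ph 2 (a i)), l i = XX l a 1 + XX l a 3 + XX l a 4 := by
  simp only [Dy, XX, Sy, sum_filter, ← sum_sub_distrib, ← sum_add_distrib]
  refine ⟨⟨?_, ?_, ?_⟩, ?_, ?_, ?_⟩ <;> refine sum_congr rfl fun i _ => ?_ <;>
    generalize a i = x <;> fin_cases x <;> simp [ph, sg4]

lemma ph_un : ∀ x : Fin 5, (ph 0 x ≠ 0 → ph 1 x ≠ 0 ∨ ph 2 x ≠ 0) ∧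
    (ph 1 x ≠ 0 → ph 0 x ≠ 0 ∨ ph 2 x ≠ 0) ∧ (ph 2 x ≠ 0 → ph 0 x ≠ 0 ∨ ph 1 x ≠ 0) := by decide

theorem core {π : ι → ℕ} (hπ : Function.Injective π) {Q : Finset ℕ} (hP : ∀ i, (π i).Prime)
    (hQ : ∀ p ∈ Q, p.Prime) (hd : Disjoint (univ.image π) Q) {ρ σ σ' ζ ξ Θ h Λ : ℝ}
    (hρ0 : 0 < ρ) (hρ : ρ ≤ ∏ q ∈ Q, (1 - rc q)) (hσ : ∑ q ∈ Q, rc q ≤ σ) (hh : 0 ≤ h)
    (σ0 : 0 < σ) (σ0' : 0 < σ') (ζ0 : 0 < ζ) (ξ0 : 0 < ξ) (Θ0 : 0 < Θ)
    (hζ : ∀ u, ∑ q ∈ Q, rc q * (if |Real.log q - u| ≤ h then 1 else 0) ≤ ζ)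
    (hσ' : σ' ≤ ∑ p ∈ Q, rc p * if 5 / 2 * Λ ≤ Real.log p ∧ Real.log p ≤ 7 / 2 * Λ then 1 else 0)
    (hξ : ∀ u, 3 / 2 * Λ ≤ u → u ≤ 9 / 2 * Λ → ∀ a ∈ Q, ∀ b ∈ Q,
      ξ ≤ ∑ q ∈ Q, rc q * if q ≠ a ∧ q ≠ b ∧ |Real.log q - u| ≤ h / 2 then 1 else 0)
    (good : Finset ι → Prop) [DecidablePred good]
    (hΘ : E (fun i => rc (π i)) univ (fun S => Ec fun c => Ec fun c' =>
      if good S ∧ |DD (fun i => Real.log (π i)) S c - DD (fun i => Real.log (π i)) S c'| ≤ 2 * h
        then 1 else 0) ≤ Θ)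
    (hbad : E (fun i => rc (π i)) univ (fun S => if good S then 0 else 1) ≤ 1 / 6)
    (hsz : ∀ S, good S → ∑ i ∈ S, Real.log (π i) ≤ Λ)
    (V : Finset ℕ → ℝ) (hV : ∀ S, V S = 0 ∨ V S = 1)
    (hc : ∀ m, Tri (Real.exp h) (univ.image π ∪ Q) m → ∃ k, V (m k) = 1) :
    ρ * σ' ^ 2 * ξ ^ 4 / (72 * σ * ζ ^ 3 * Θ) ≤ E rc (univ.image π ∪ Q) V := by
  set l : ι → ℝ := fun i => Real.log (π i) with hl
  have V0 : ∀ S, 0 ≤ V S := fun S => by rcases hV S with h | h <;> rw [h]; norm_num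
  obtain ⟨t, ht⟩ : ∃ t, t = 6 * σ * ζ ^ 2 * Θ / (σ' * ξ ^ 2) := ⟨_, rfl⟩
  have t0 : 0 < t := by rw [ht]; positivity
  have hL := Lbound hπ hP hQ hd l hρ0 hρ hσ t0 hζ good hΘ hV
  obtain ⟨K, hK⟩ : ∃ K : (ι → Fin 4) → ℕ → ℕ → ℝ, ∀ y p q, K y p q = if p ≠ q ∧ good (Sy y) ∧
      |Dy l y + Real.log p - Real.log q| ≤ h then V ((Sy y).image π ∪ {p, q}) else 0 :=
    ⟨_, fun _ _ _ => rfl⟩
  have K0 : ∀ y p q, 0 ≤ K y p q := fun y p q => by rw [hK]; split_ifs; exacts [V0 _, le_rfl]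
  obtain ⟨w, hw⟩ : ∃ w : (ι → Fin 5) → ℝ, ∀ a, w a = ∏ i, w5 (rc (π i)) (a i) := ⟨_, fun _ => rfl⟩
  have w0 : ∀ a, 0 ≤ w a := fun a => by
    rw [hw]
    refine prod_nonneg fun i _ => ?_
    have := rc_ok (P := {π i}) (by simpa using hP i) _ (mem_singleton_self _)
    unfold w5; split_ifs <;> linarith
  have p1 : ∀ k, ∑ a, w a * ∑ p ∈ Q, ∑ q ∈ Q, rc p * rc q * K (fun i => ph k (a i)) p q ≤
      t / ρ * E rc (univ.image π ∪ Q) V + σ * ζ * Θ / (2 * t) := fun k => by
    simp only [hw]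
    rw [push _ (ph k) (ph_ok k) (fun y => ∑ p ∈ Q, ∑ q ∈ Q, rc p * rc q * K y p q)]
    simpa only [hK, Sy_merge, Dy_merge] using hL
  have p2 : ∀ k, ∑ a, w a * (if good (Sy fun i => ph k (a i)) then 0 else 1) ≤ 1 / 6 := fun k => by
    simp only [hw]
    rw [push _ (ph k) (ph_ok k) (fun y => if good (Sy y) then 0 else 1)]
    simpa only [Sy_merge, Ec_const] using hbad
  have p3 : ∑ a, w a * 1 = 1 := by
    simp only [hw]
    rw [push _ (ph 0) (ph_ok 0) (fun _ => 1)]
    simp only [Ec_const, E_const]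
  have key : ∀ a : ι → Fin 5, σ' * ξ ^ 2 * (1 - ∑ k, if good (Sy fun i => ph k (a i)) then 0 else 1) ≤
      ζ * ∑ k, ∑ p ∈ Q, ∑ q ∈ Q, rc p * rc q * K (fun i => ph k (a i)) p q := by
    intro a
    by_cases hg : ∀ k, good (Sy fun i => ph k (a i))
    swap
    · push Not at hg
      obtain ⟨k, hk⟩ := hg
      have := single_le_sum (f := fun k => if good (Sy fun i => ph k (a i)) then (0 : ℝ) else 1)
        (fun _ _ => by positivity) (mem_univ k)
      rw [if_neg hk] at this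
      refine le_trans (mul_nonpos_of_nonneg_of_nonpos (by positivity) (by linarith))
        (mul_nonneg ζ0.le (sum_nonneg fun _ _ => sum_nonneg fun _ _ => sum_nonneg fun _ _ =>
          mul_nonneg (mul_nonneg (rc_nonneg _) (rc_nonneg _)) (K0 _ _ _)))
    obtain ⟨⟨d0, d1, d2⟩, e0, e1, e2⟩ := XX_eq l a
    have x0 : ∀ k, 0 ≤ XX l a k := fun k => sum_nonneg fun i _ => by
      have := Real.log_natCast_nonneg (π i); positivity
    have z0 := hsz _ (hg 0)
    have z1 := hsz _ (hg 1)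
    rw [e0] at z0
    rw [e1] at z1
    obtain ⟨I, hI⟩ : ∃ I : ℕ → ℕ → ℕ → Prop, ∀ p q s, I p q s ↔ (q ≠ p ∧
      |Real.log q - (XX l a 2 + Real.log p - XX l a 3)| ≤ h / 2) ∧ s ≠ p ∧ s ≠ q ∧
      |Real.log s - (XX l a 2 + Real.log p - XX l a 4)| ≤ h / 2 := ⟨_, fun _ _ _ => Iff.rfl⟩
    classical
    calc _ ≤ ∑ p ∈ Q, ∑ q ∈ Q, ∑ s ∈ Q, rc p * rc q * rc s * if I p q s then 1 else 0 := by
          simp only [hg, if_true, sum_const_zero, sub_zero, mul_one]
          refine (mul_le_mul_of_nonneg_right hσ' (by positivity)).trans ?_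
          rw [sum_mul]
          refine sum_le_sum fun p hp => ?_
          simp only [mul_assoc, ← mul_sum]
          refine mul_le_mul_of_nonneg_left ?_ (rc_nonneg p)
          have n : ∀ q, 0 ≤ ∑ s ∈ Q, rc s * if I p q s then 1 else 0 := fun q =>
            sum_nonneg fun s _ => by have := rc_nonneg s; positivity
          split_ifs with hm
          swap
          · rw [zero_mul]; exact sum_nonneg fun q _ => mul_nonneg (rc_nonneg q) (n q)
          rw [one_mul, sq]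
          have := x0 1; have := x0 2; have := x0 3; have := x0 4
          refine (mul_le_mul_of_nonneg_right (hξ (XX l a 2 + Real.log p - XX l a 3) (by linarith)
            (by linarith) p hp p hp) ξ0.le).trans ?_
          rw [sum_mul]
          refine sum_le_sum fun q hq => ?_
          rw [mul_assoc]
          refine mul_le_mul_of_nonneg_left ?_ (rc_nonneg q)
          split_ifs with hn
          swap
          · rw [zero_mul]; exact n q
          rw [one_mul]
          refine (hξ (XX l a 2 + Real.log p - XX l a 4) (by linarith) (by linarith) p hp q hq).trans_eq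
            (sum_congr rfl fun s _ => ?_)
          simp only [hI, hn.1, hn.2.2, ne_eq, not_false_eq_true, true_and]
      _ ≤ ∑ p ∈ Q, ∑ q ∈ Q, ∑ s ∈ Q,
            (rc p * rc q * rc s * (if I p q s then K (fun i => ph 0 (a i)) p q else 0) +
            rc p * rc s * rc q * (if I p q s then K (fun i => ph 1 (a i)) p s else 0) +
            rc q * rc s * rc p * (if I p q s then K (fun i => ph 2 (a i)) q s else 0)) := by
          refine sum_le_sum fun p hp => sum_le_sum fun q hq => sum_le_sum fun s hs => ?_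
          split_ifs with hi
          swap
          · simp
          obtain ⟨⟨i1, i2⟩, i3, i4, i5⟩ := (hI _ _ _).mp hi
          rw [abs_le] at i2 i5
          have nQ : ∀ y : ι → Fin 4, ∀ x ∈ Q, x ∉ (Sy y).image π := fun y x hx hn =>
            disjoint_left.mp hd (image_subset_image (subset_univ _) hn) hx
          have sb : ∀ y : ι → Fin 4, ∀ x ∈ Q, ∀ x' ∈ Q, (Sy y).image π ∪ {x, x'} ⊆ univ.image π ∪ Q :=
            fun y x hx x' hx' => union_subset_union (image_subset_image (subset_univ _))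
              (insert_subset hx (singleton_subset_iff.mpr hx'))
          have sl : ∀ y : ι → Fin 4, ∀ x ∈ Q, ∀ x' ∈ Q, x ≠ x' →
              ∑ p ∈ (Sy y).image π ∪ {x, x'}, Real.log p =
              ∑ i ∈ Sy y, l i + (Real.log x + Real.log x') := fun y x hx x' hx' e => by
            rw [sum_union (disjoint_right.mpr fun b hb => nQ y b
              (insert_subset hx (singleton_subset_iff.mpr hx') hb)),
              sum_image fun _ _ _ _ e => hπ e, sum_pair e]
          have un : ∀ {y y' y'' : ι → Fin 4} {A B C : Finset ℕ}, (∀ i, y i ≠ 0 → y' i ≠ 0 ∨ y'' i ≠ 0) →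
              A ⊆ B ∪ C → (Sy y).image π ∪ A ⊆ ((Sy y').image π ∪ B) ∪ ((Sy y'').image π ∪ C) := by
            intro y y' y'' A B C h1 h2
            rw [union_union_union_comm, ← image_union]
            refine union_subset_union (image_subset_image fun i hi => ?_) h2
            simpa [Sy] using h1 i (by simpa [Sy] using hi)
          have cv := cover (fun p hp => by
              rcases mem_union.mp hp with hp | hp
              · obtain ⟨i, -, rfl⟩ := mem_image.mp hp; exact hP i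
              · exact hQ p hp) hc hh
            (sb (fun i => ph 0 (a i)) p hp q hq) (sb (fun i => ph 1 (a i)) p hp s hs)
            (sb (fun i => ph 2 (a i)) q hq s hs)
            (fun e => by simpa [nQ _ s hs, i3, i4] using congrArg (s ∈ ·) e)
            (fun e => by simpa [nQ _ s hs, i3, i4] using congrArg (s ∈ ·) e)
            (fun e => by simpa [nQ _ q hq, i1, i4.symm] using congrArg (q ∈ ·) e)
            (un (fun i => (ph_un _).1) (by simp [insert_subset_iff]))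
            (un (fun i => (ph_un _).2.1) (by simp [insert_subset_iff]))
            (un (fun i => (ph_un _).2.2) (by simp [insert_subset_iff]))
            (by rw [sl _ p hp q hq i1.symm, sl _ p hp s hs i3.symm, e0, e1, abs_le]
                constructor <;> linarith)
            (by rw [sl _ p hp q hq i1.symm, sl _ q hq s hs i4.symm, e0, e2, abs_le]
                constructor <;> linarith)
            (by rw [sl _ p hp s hs i3.symm, sl _ q hq s hs i4.symm, e1, e2, abs_le]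
                constructor <;> linarith)
          rw [hK, hK, hK, d0, d1, d2, if_pos ⟨i1.symm, hg 0, abs_le.mpr ⟨by linarith, by linarith⟩⟩,
            if_pos ⟨i3.symm, hg 1, abs_le.mpr ⟨by linarith, by linarith⟩⟩,
            if_pos ⟨i4.symm, hg 2, abs_le.mpr ⟨by linarith, by linarith⟩⟩]
          have n := mul_nonneg (mul_nonneg (rc_nonneg p) (rc_nonneg q)) (rc_nonneg s)
          have := mul_nonneg n (V0 ((Sy fun i => ph 0 (a i)).image π ∪ {p, q}))
          have := mul_nonneg n (V0 ((Sy fun i => ph 1 (a i)).image π ∪ {p, s}))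
          have := mul_nonneg n (V0 ((Sy fun i => ph 2 (a i)).image π ∪ {q, s}))
          rcases cv with h | h | h <;> rw [h] at * <;> nlinarith
      _ ≤ _ := by
          have cl : ∀ {b : Prop} [Decidable b] {x y : ℝ}, 0 ≤ x → (b → |y| ≤ h / 2) →
              (if b then x else 0) ≤ x * if |y| ≤ h then 1 else 0 := by
            intro b _ x y hx hb
            split_ifs with h1 h2
            exacts [by rw [mul_one], absurd ((hb h1).trans (by linarith)) h2, by simpa, by simp]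
          simp only [sum_add_distrib]
          rw [Fin.sum_univ_three, mul_add, mul_add]
          refine add_le_add (add_le_add ?_ ?_) ?_
          · exact tri_sum hζ (K0 _) fun p q s => cl (K0 _ _ _) fun hi => ((hI _ _ _).mp hi).2.2.2
          · rw [sum_congr rfl fun p _ => sum_comm]
            exact tri_sum hζ (K0 _) fun p s q => cl (K0 _ _ _) fun hi => ((hI _ _ _).mp hi).1.2
          · rw [sum_comm, sum_congr rfl fun p _ => sum_comm]
            refine tri_sum hζ (u := fun q _ => Real.log q - XX l a 2 + XX l a 3) (K0 _)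
              fun q s p => cl (K0 _ _ _) fun hi => ?_
            have := abs_le.mp ((hI _ _ _).mp hi).1.2
            exact abs_le.mpr ⟨by linarith, by linarith⟩
  have fin := sum_le_sum fun a (_ : a ∈ univ) => mul_le_mul_of_nonneg_left (key a) (w0 a)
  simp only [Fin.sum_univ_three, mul_left_comm (w _), mul_add (w _), mul_sub (w _), ← mul_sum,
    sum_add_distrib, sum_sub_distrib] at fin
  have f1 : σ' * ξ ^ 2 * (1 / 2) ≤
      ζ * (3 * (t / ρ * E rc (univ.image π ∪ Q) V + σ * ζ * Θ / (2 * t))) := by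
    refine le_trans (mul_le_mul_of_nonneg_left ?_ (by positivity)) (fin.trans
      (mul_le_mul_of_nonneg_left ?_ ζ0.le))
    · linarith [p2 0, p2 1, p2 2]
    · linarith [p1 0, p1 1, p1 2]
  have f2 : ζ * (3 * (σ * ζ * Θ / (2 * t))) = σ' * ξ ^ 2 / 4 := by rw [ht]; field_simp; ring
  have f3 : ζ * (3 * (t / ρ)) * (ρ * σ' ^ 2 * ξ ^ 4 / (72 * σ * ζ ^ 3 * Θ)) = σ' * ξ ^ 2 / 4 := by
    rw [ht]; field_simp; ring
  exact le_of_mul_le_mul_left (by linarith) (show 0 < ζ * (3 * (t / ρ)) by positivity)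

end Pool.Agent.H.MP_22cd7c_nt
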