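import Pool.Agent.H.MP_22cd7c_nt.F
import Pool.Agent.H.MP_2c5684_nt.A
import Pool.Agent.Lib.helper27.WPNT

set_option autoImplicit false

namespace Pool.Agent.H.MP_22cd7c_nt
open Finset Pool.Agent.H.MP_2c5684_nt Pool.Agent.H.MP_636046_nt

/-- primes with logarithm in `(a, b]` -/
noncomputable def Pr (a b : ℝ) : Finset ℕ :=
  (Ioc 0 ⌊Real.exp b⌋₊).filter fun p => p.Prime ∧ a < Real.log p

lemma le_fl {p : ℕ} (hp : p.Prime) {b : ℝ} : p ≤ ⌊Real.exp b⌋₊ ↔ Real.log p ≤ b := by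
  rw [Nat.le_floor_iff (Real.exp_pos b).le, Real.log_le_iff_le_exp (by exact_mod_cast hp.pos)]

lemma mem_Pr {a b : ℝ} {p : ℕ} : p ∈ Pr a b ↔ p.Prime ∧ a < Real.log p ∧ Real.log p ≤ b := by
  rw [Pr, mem_filter, mem_Ioc]
  exact ⟨fun h => ⟨h.2.1, h.2.2, (le_fl h.2.1).mp h.1.2⟩,
    fun h => ⟨⟨h.1.pos, (le_fl h.1).mpr h.2.2⟩, h.1, h.2.1⟩⟩

lemma fl_log {b : ℝ} (hb : 0 ≤ b) : 0 < ⌊Real.exp b⌋₊ ∧ Real.log ⌊Real.exp b⌋₊ ≤ b ∧
    b - 1 ≤ Real.log ⌊Real.exp b⌋₊ := by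
  have h0 : 0 < ⌊Real.exp b⌋₊ := Nat.floor_pos.mpr (Real.one_le_exp hb)
  have h1 : (1 : ℝ) ≤ ⌊Real.exp b⌋₊ := by exact_mod_cast h0
  refine ⟨h0, (Real.log_le_iff_le_exp (by linarith)).mpr (Nat.floor_le (Real.exp_pos b).le), ?_⟩
  rw [Real.le_log_iff_exp_le (by linarith), Real.exp_sub, div_le_iff₀ (Real.exp_pos 1)]
  nlinarith [Nat.lt_floor_add_one (Real.exp b), Real.add_one_le_exp 1]

lemma mer_top {S : Finset ℕ} {b : ℝ} (hb : 0 ≤ b) (hS : ∀ p ∈ S, p.Prime ∧ Real.log p ≤ b) :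
    ∑ p ∈ S, rc p * Real.log p ≤ b + 2 := by
  obtain ⟨h0, h1, -⟩ := fl_log hb
  refine le_trans ?_ ((mer_up _ h0).trans (by linarith))
  simp only [rc, one_div_mul_eq_div]
  exact sum_le_sum_of_subset_of_nonneg (fun p hp => mem_filter.mpr ⟨mem_Ioc.mpr
    ⟨(hS p hp).1.pos, (le_fl (hS p hp).1).mpr (hS p hp).2⟩, (hS p hp).1⟩)
    fun p _ _ => div_nonneg (Real.log_natCast_nonneg p) p.cast_nonneg

lemma mer_win : ∃ C : ℝ, 0 ≤ C ∧ ∀ a b : ℝ, 0 ≤ a → 0 < b → (b - a - C) / b ≤ ∑ p ∈ Pr a b, rc p := by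
  obtain ⟨C, C0, hC⟩ := mer_low
  refine ⟨C + 3, by linarith, fun a b ha hb => ?_⟩
  obtain ⟨h0, -, h1⟩ := fl_log hb.le
  have h2 := hC _ h0
  rw [← sum_filter_add_sum_filter_not _ (fun p : ℕ => a < Real.log p), filter_filter] at h2
  have h3 := mer_top ha (S := ((Ioc 0 ⌊Real.exp b⌋₊).filter Nat.Prime).filter
    fun p : ℕ => ¬ a < Real.log p) fun p hp =>
    ⟨(mem_filter.mp (mem_filter.mp hp).1).2, not_lt.mp (mem_filter.mp hp).2⟩
  simp only [rc, one_div_mul_eq_div] at h3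
  rw [div_le_iff₀ hb, sum_mul]
  refine le_trans (by rw [Pr]; linarith)
    (sum_le_sum (f := fun p : ℕ => Real.log p / p) fun p hp => ?_)
  rw [rc, one_div_mul_eq_div]
  exact div_le_div_of_nonneg_right (mem_Pr.mp hp).2.2 p.cast_nonneg

lemma win {S : Finset ℕ} {T h : ℝ} (hT : 0 < T) (hh : h ≤ 2) (hS : ∀ p ∈ S, p.Prime ∧ T < Real.log p)
    (u : ℝ) : ∑ p ∈ S, rc p * (if |Real.log p - u| ≤ h then 1 else 0) ≤ 2 * Real.exp 4 / T := by
  have h1 := theta_le (Q := S.filter fun p : ℕ => |Real.log p - u| ≤ h) (Y := ⌊Real.exp (u + 2)⌋₊)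
    fun p hp => ⟨(hS p (mem_filter.mp hp).1).1, (le_fl (hS p (mem_filter.mp hp).1).1).mpr
      (by linarith [(abs_le.mp (mem_filter.mp hp).2).2])⟩
  have h2 := Nat.floor_le (Real.exp_pos (u + 2)).le
  calc _ ≤ ∑ p ∈ S.filter fun p : ℕ => |Real.log p - u| ≤ h, Real.exp (2 - u) / T * Real.log p := by
        rw [sum_filter]
        refine sum_le_sum fun p hp => ?_
        split_ifs with hc
        swap
        · simp
        have p0 : (0 : ℝ) < p := by exact_mod_cast (hS p hp).1.pos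
        have : rc p ≤ Real.exp (2 - u) := by
          rw [rc, one_div, ← Real.exp_log p0, ← Real.exp_neg, Real.exp_le_exp]
          linarith [(abs_le.mp hc).1]
        rw [mul_one, div_mul_eq_mul_div, le_div_iff₀ hT]
        exact mul_le_mul this (hS p hp).2.le hT.le (Real.exp_pos _).le
    _ ≤ Real.exp (2 - u) / T * (2 * Real.exp (u + 2)) := by
        rw [← mul_sum]; gcongr; linarith
    _ = _ := by
        rw [show (4 : ℝ) = 2 - u + (u + 2) by ring, Real.exp_add (2 - u)]; ring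

lemma top {h : ℝ} (h0 : 0 < h) (h1 : h ≤ 1) : ∃ c > 0, ∃ L, ∀ Λ : ℝ, L ≤ Λ →
    Real.exp (-14) ≤ ∏ q ∈ Pr Λ (5 * Λ), (1 - rc q) ∧ ∑ q ∈ Pr Λ (5 * Λ), rc q ≤ 7 ∧
    (1 / 7 ≤ ∑ p ∈ Pr Λ (5 * Λ),
      rc p * if 5 / 2 * Λ ≤ Real.log p ∧ Real.log p ≤ 7 / 2 * Λ then 1 else 0) ∧
    ∀ u, 3 / 2 * Λ ≤ u → u ≤ 9 / 2 * Λ → ∀ a ∈ Pr Λ (5 * Λ), ∀ b ∈ Pr Λ (5 * Λ), c / Λ ≤
      ∑ q ∈ Pr Λ (5 * Λ), rc q * if q ≠ a ∧ q ≠ b ∧ |Real.log q - u| ≤ h / 2 then 1 else 0 := by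
  obtain ⟨C, C0, hC⟩ := mer_win
  obtain ⟨c, c0, N, hN⟩ := Pool.Agent.Lib.helper27.WPNT.weak_pnt (ε := 1 - Real.exp (-(h / 2)))
    (sub_pos.mpr (Real.exp_lt_one_iff.mpr (by linarith)))
  refine ⟨c / 10, by positivity, 2 + 2 * C + 40 / c + N + 2 / h, fun Λ hΛ => ?_⟩
  have a1 : 0 ≤ 40 / c := by positivity
  have a2 : 0 ≤ 2 / h := by positivity
  have a3 : (0 : ℝ) ≤ N := by positivity
  have Λ0 : 0 < Λ := by linarith
  have s : ∑ q ∈ Pr Λ (5 * Λ), rc q ≤ 7 := by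
    have := mer_top (S := Pr Λ (5 * Λ)) (b := 5 * Λ) (by linarith)
      fun p hp => ⟨(mem_Pr.mp hp).1, (mem_Pr.mp hp).2.2⟩
    have : (∑ q ∈ Pr Λ (5 * Λ), rc q) * Λ ≤ ∑ q ∈ Pr Λ (5 * Λ), rc q * Real.log q := by
      rw [sum_mul]
      exact sum_le_sum fun p hp => mul_le_mul_of_nonneg_left (mem_Pr.mp hp).2.1.le (rc_nonneg p)
    exact le_of_mul_le_mul_right (by linarith) Λ0
  refine ⟨?_, s, ?_, fun u u1 u2 a ha b hb => ?_⟩
  · refine le_trans (b := Real.exp (∑ q ∈ Pr Λ (5 * Λ), -(2 * rc q)))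
      (Real.exp_le_exp.mpr (by rw [sum_neg_distrib, ← mul_sum]; linarith)) ?_
    rw [Real.exp_sum]
    refine prod_le_prod (fun _ _ => by positivity) fun p hp => ?_
    obtain ⟨b1, b2⟩ := rc_ok (fun p hp => (mem_Pr.mp hp).1) p hp
    rw [Real.exp_neg, inv_le_iff_one_le_mul₀ (Real.exp_pos _)]
    nlinarith [Real.add_one_le_exp (2 * rc p), mul_nonneg b1 (sub_nonneg.mpr b2)]
  · refine le_trans ?_ ((hC (5 / 2 * Λ) (7 / 2 * Λ) (by linarith) (by linarith)).trans ?_)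
    · rw [div_le_div_iff₀ (by norm_num) (by linarith)]; linarith
    · simp only [mul_ite, mul_one, mul_zero, ← sum_filter]
      refine sum_le_sum_of_subset_of_nonneg (fun p hp => ?_) fun p _ _ => rc_nonneg p
      obtain ⟨b1, b2, b3⟩ := mem_Pr.mp hp
      exact mem_filter.mpr ⟨mem_Pr.mpr ⟨b1, by linarith, by linarith⟩, b2.le, b3⟩
  · have e1 := Real.add_one_le_exp u
    have y1 := Nat.le_ceil (Real.exp u)
    have y2 := Nat.ceil_lt_add_one (Real.exp_pos u).le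
    set Y := ⌈Real.exp u⌉₊
    have Y0 : (0 : ℝ) < Y := by linarith
    have y3 : (Y : ℝ) ≤ Real.exp (u + h / 2) := by
      have : 2 / h * h ≤ Real.exp u * h := by gcongr; linarith
      rw [div_mul_cancel₀ _ h0.ne'] at this
      rw [Real.exp_add]
      nlinarith [Real.add_one_le_exp (h / 2), Real.exp_pos u]
    have b1 := hN Y (by exact_mod_cast (show (N : ℝ) ≤ Y by linarith))
    rw [sub_sub_cancel] at b1
    have b2 : ∑ p ∈ (range (Y + 1)).filter (fun p : ℕ => p.Prime ∧ Real.exp (-(h / 2)) * Y < p),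
        Real.log p ≤ (∑ q ∈ (Pr Λ (5 * Λ)).filter fun q : ℕ => |Real.log q - u| ≤ h / 2, rc q) *
          (5 * Λ * Y) := by
      have m : ∀ p ∈ (range (Y + 1)).filter (fun p : ℕ => p.Prime ∧ Real.exp (-(h / 2)) * Y < p),
          (0 : ℝ) < p ∧ (p : ℝ) ≤ Y ∧ u - h / 2 ≤ Real.log p ∧ Real.log p ≤ u + h / 2 := by
        intro p hp
        obtain ⟨m1, m2, m3⟩ := mem_filter.mp hp
        have p0 : (0 : ℝ) < p := by exact_mod_cast m2.pos
        have : (p : ℝ) ≤ Y := by exact_mod_cast Nat.lt_succ_iff.mp (mem_range.mp m1)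
        refine ⟨p0, this, ?_, (Real.log_le_iff_le_exp p0).mpr (by linarith)⟩
        rw [Real.le_log_iff_exp_le p0, sub_eq_neg_add, Real.exp_add]
        exact le_trans (by gcongr) m3.le
      rw [sum_mul]
      refine le_trans (sum_le_sum (g := fun p => rc p * (5 * Λ * Y)) fun p hp => ?_)
        (sum_le_sum_of_subset_of_nonneg (fun p hp => ?_) fun p _ _ => by
          have := rc_nonneg p; positivity) <;> obtain ⟨m1, m2, m3, m4⟩ := m p hp
      · rw [rc, one_div_mul_eq_div, le_div_iff₀ m1]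
        exact mul_le_mul (by linarith) m2 m1.le (by linarith)
      · exact mem_filter.mpr ⟨mem_Pr.mpr ⟨(mem_filter.mp hp).2.1, by linarith, by linarith⟩,
          abs_le.mpr ⟨by linarith, by linarith⟩⟩
    have b3 : ∀ a ∈ Pr Λ (5 * Λ), rc a ≤ c / (20 * Λ) := fun a ha => by
      obtain ⟨m1, m2, -⟩ := mem_Pr.mp ha
      have p0 : (0 : ℝ) < a := by exact_mod_cast m1.pos
      rw [Real.lt_log_iff_exp_lt p0] at m2
      have := Real.quadratic_le_exp_of_nonneg Λ0.le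
      have : 40 / c * c ≤ Λ * c := by gcongr; linarith
      rw [div_mul_cancel₀ _ c0.ne'] at this
      rw [rc, div_le_div_iff₀ p0 (by positivity)]
      nlinarith
    have b4 : ∑ q ∈ (Pr Λ (5 * Λ)).filter (fun q : ℕ => |Real.log q - u| ≤ h / 2), rc q ≤
        ∑ q ∈ Pr Λ (5 * Λ), ((rc q * if q ≠ a ∧ q ≠ b ∧ |Real.log q - u| ≤ h / 2 then 1 else 0) +
          (if q = a then rc q else 0) + if q = b then rc q else 0) := by
      rw [sum_filter]
      refine sum_le_sum fun q _ => ?_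
      have := rc_nonneg q
      by_cases e1 : q = a <;> by_cases e2 : q = b <;> split_ifs <;> first | linarith | tauto
    rw [sum_add_distrib, sum_add_distrib, sum_ite_eq', sum_ite_eq', if_pos ha, if_pos hb] at b4
    have b5 : c / (5 * Λ) ≤ ∑ q ∈ (Pr Λ (5 * Λ)).filter fun q : ℕ => |Real.log q - u| ≤ h / 2, rc q := by
      rw [div_le_iff₀ (by positivity)]
      exact le_of_mul_le_mul_right (by linarith) Y0
    have := b3 a ha
    have := b3 b hb
    have : c / (5 * Λ) = c / 10 / Λ + 2 * (c / (20 * Λ)) := by field_simp; ring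
    linarith

lemma geo {q : ℝ} (h0 : 0 ≤ q) (h1 : q < 1) (n : ℕ) : ∑ j ∈ range n, q ^ j ≤ (1 - q)⁻¹ :=
  sum_le_hasSum _ (fun _ _ => by positivity) (hasSum_geometric_of_lt_one h0 h1)

lemma bot : ∃ B > 0, ∀ L h : ℝ, h ≤ 1 → ∃ T Λ : ℝ, L ≤ T ∧ T ≤ Λ ∧
    ∃ (good : Finset (Pr T Λ) → Prop) (_ : DecidablePred good),
    E (fun i : Pr T Λ => rc i) univ (fun S => Ec fun c => Ec fun c' =>
      if good S ∧ |DD (fun i : Pr T Λ => Real.log i) S c - DD (fun i : Pr T Λ => Real.log i) S c'| ≤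
        2 * h then 1 else 0) ≤ B / Λ ∧
    E (fun i : Pr T Λ => rc i) univ (fun S => if good S then 0 else 1) ≤ 1 / 6 ∧
    ∀ S, good S → ∑ i ∈ S, Real.log i ≤ 48 * Λ := by
  obtain ⟨C, C0, hC⟩ := mer_win
  obtain ⟨q, hq⟩ : ∃ q, q = Real.exp (1 / 100 * 0.046 - (1 - Real.exp (-(1 / 100))) * 0.047) :=
    ⟨_, rfl⟩
  have q0 : 0 < q := by rw [hq]; positivity
  have x1 : Real.exp (-(1 / 100)) ≤ 100 / 101 := by
    rw [Real.exp_neg, inv_le_comm₀ (Real.exp_pos _) (by norm_num)]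
    linarith [Real.add_one_le_exp (1 / 100)]
  have q1 : q < 1 := by rw [hq, Real.exp_lt_one_iff]; linarith
  obtain ⟨K, hK⟩ : ∃ K, Real.exp (-(1 / 100 * K)) * (1 - q)⁻¹ = 1 / 12 :=
    ⟨-(100 * Real.log ((1 - q) / 12)), by
      rw [show -(1 / 100 * -(100 * Real.log ((1 - q) / 12))) = Real.log ((1 - q) / 12) by ring,
        Real.exp_log (by linarith)]
      have : 1 - q ≠ 0 := by linarith
      field_simp⟩
  obtain ⟨θ, hθ⟩ : ∃ θ, θ = Real.exp (-(1.09 * 0.046)) := ⟨_, rfl⟩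
  have θ0 : 0 < θ := by rw [hθ]; positivity
  have θ1 : θ * (21 / 20) < 1 := by
    rw [hθ, Real.exp_neg, inv_mul_lt_iff₀ (Real.exp_pos _)]
    linarith [Real.add_one_le_exp (1.09 * 0.046)]
  have θ2 : 0 < (1 - θ * (21 / 20))⁻¹ := inv_pos.mpr (by linarith)
  refine ⟨Real.exp (1.09 * K) * (1 + 18 * (2 * Real.exp 4) * (21 / 20) * (1 - θ * (21 / 20))⁻¹),
    by positivity, fun L h h1 => ?_⟩
  obtain ⟨T, T1, T2, T3⟩ : ∃ T : ℝ, L ≤ T ∧ 2 ≤ T ∧ 2000 * C ≤ T :=
    ⟨|L| + 2 + 2000 * C, by linarith [le_abs_self L], by linarith [abs_nonneg L],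
      by linarith [abs_nonneg L]⟩
  have T0 : 0 < T := by linarith
  obtain ⟨J, hJ⟩ := exists_pow_lt_of_lt_one (inv_pos.mpr T0) θ1
  obtain ⟨Λ, hΛ⟩ : ∃ Λ, Λ = T * (21 / 20) ^ J := ⟨_, rfl⟩
  have TΛ : T ≤ Λ := by rw [hΛ]; exact le_mul_of_one_le_right T0.le (one_le_pow₀ (by norm_num))
  have Λ0 : 0 < Λ := by linarith
  obtain ⟨t, ht⟩ : ∃ t : ℕ → ℝ, ∀ j, t j = Λ * (20 / 21) ^ j := ⟨_, fun _ => rfl⟩
  have t0 : ∀ j, 0 < t j := fun j => by rw [ht]; positivity
  have tJ : t J = T := by rw [ht, hΛ, mul_assoc, ← mul_pow]; norm_num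
  have tm : ∀ j ≤ J, T ≤ t j := fun j hj => by
    rw [← tJ, ht, ht]
    exact mul_le_mul_of_nonneg_left (pow_le_pow_of_le_one (by norm_num) (by norm_num) hj) Λ0.le
  have ts : ∀ j, t (j + 1) = 20 / 21 * t j := fun j => by rw [ht, ht]; ring
  obtain ⟨lv, hlv⟩ : ∃ lv : ℕ → ℕ, ∀ p, lv p = sInf {j | t (j + 1) < Real.log p} := ⟨_, fun _ => rfl⟩
  have l1 : ∀ p ∈ Pr T Λ, ∀ j, t j < Real.log p → lv p < j := fun p hp j hj => by
    cases j with
    | zero => rw [ht] at hj; linarith [(mem_Pr.mp hp).2.2]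
    | succ j => rw [hlv]; exact Nat.lt_succ_of_le (Nat.sInf_le hj)
  have l2 : ∀ p ∈ Pr T Λ, lv p < J := fun p hp => l1 p hp J (tJ ▸ (mem_Pr.mp hp).2.1)
  have l3 : ∀ p ∈ Pr T Λ, t (lv p + 1) < Real.log p := fun p hp => by
    obtain ⟨j, hj⟩ : ∃ j, J = j + 1 := ⟨J - 1, by have := l2 p hp; omega⟩
    rw [hlv]
    exact Nat.sInf_mem (s := {j | t (j + 1) < Real.log p})
      ⟨j, by rw [Set.mem_setOf_eq, ← hj, tJ]; exact (mem_Pr.mp hp).2.1⟩
  have ok : ∀ i ∈ (univ : Finset (Pr T Λ)), 0 ≤ rc i ∧ rc i ≤ 1 / 2 := fun i _ =>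
    rc_ok (fun p hp => (mem_Pr.mp hp).1) _ i.2
  have mass : ∀ j ≤ J, 0.047 * j ≤ ∑ p ∈ Pr (t j) Λ, rc p := by
    intro j
    induction j with
    | zero => exact fun _ => by simpa using sum_nonneg fun p _ => rc_nonneg p
    | succ j ih =>
      intro hj
      have a1 := ih (by omega)
      have a2 := hC (t (j + 1)) (t j) (t0 _).le (t0 _)
      have a3 := tm j (by omega)
      have a4 : 0.047 ≤ (t j - t (j + 1) - C) / t j := by rw [le_div_iff₀ (t0 j), ts]; linarith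
      have a5 : t j ≤ Λ := by
        rw [ht]; exact mul_le_of_le_one_right Λ0.le (pow_le_one₀ (by norm_num) (by norm_num))
      have a6 : ∑ p ∈ Pr (t (j + 1)) (t j) ∪ Pr (t j) Λ, rc p ≤ ∑ p ∈ Pr (t (j + 1)) Λ, rc p :=
        sum_le_sum_of_subset_of_nonneg (fun p hp => by
          rcases mem_union.mp hp with hp | hp <;> obtain ⟨b1, b2, b3⟩ := mem_Pr.mp hp
          · exact mem_Pr.mpr ⟨b1, b2, by linarith⟩
          · exact mem_Pr.mpr ⟨b1, by linarith [ts j, t0 j], b3⟩) fun p _ _ => rc_nonneg p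
      rw [sum_union (disjoint_left.mpr fun p h1 h2 => by
        linarith [(mem_Pr.mp h1).2.2, (mem_Pr.mp h2).2.1])] at a6
      push_cast
      linarith
  obtain ⟨good, hg⟩ : ∃ good : Finset (Pr T Λ) → Prop, ∀ S, good S ↔ (∀ j ∈ range (J + 1),
    0.046 * j - K ≤ ((S.filter fun i : Pr T Λ => lv i < j).card : ℝ)) ∧
    ∑ i ∈ S, Real.log i ≤ 48 * Λ := ⟨_, fun _ => Iff.rfl⟩
  classical
  refine ⟨T, Λ, T1, TΛ, good, inferInstance, ?_, ?_, fun S hS => ((hg S).mp hS).2⟩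
  · refine (theta (lev := fun i : Pr T Λ => lv i) (J := J) (g := fun j => Real.exp (1.09 * K) * θ ^ j)
      (ζ := fun j => 2 * Real.exp 4 / t (j + 1)) ok (fun i => l2 _ i.2) (fun j => by positivity)
      (fun j u => ?_) _ fun S hS j hj => ?_).trans ?_
    · refine le_trans (le_of_eq ?_) (win (S := (Pr T Λ).filter (lv · = j)) (h := 2 * h) (t0 (j + 1))
        (by linarith) (fun p hp => ⟨(mem_Pr.mp (mem_filter.mp hp).1).1,
          (mem_filter.mp hp).2 ▸ l3 p (mem_filter.mp hp).1⟩) u)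
      rw [sum_filter, sum_filter, sum_coe_sort _ fun p : ℕ => if lv p = j then
        (if |Real.log p - u| ≤ 2 * h then rc p else 0) else 0]
      simp
    · have a1 := ((hg S).mp hS).1 j (mem_range.mpr (by omega))
      have a2 : (1 / 3 : ℝ) ≤ Real.exp (-1.09) := by
        rw [Real.exp_neg, one_div, inv_le_inv₀ (by norm_num) (Real.exp_pos _),
          show (1.09 : ℝ) = 1 + 0.09 by norm_num, Real.exp_add]
        have := Real.exp_bound_div_one_sub_of_interval (x := 0.09) (by norm_num) (by norm_num)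
        nlinarith [Real.exp_one_lt_d9, Real.exp_pos 1, Real.exp_pos 0.09]
      refine (pow_le_pow_left₀ (by norm_num) a2 _).trans ?_
      rw [hθ, ← Real.exp_nat_mul, ← Real.exp_nat_mul, ← Real.exp_add, Real.exp_le_exp]
      linarith
    · rw [mul_add, add_div]
      refine add_le_add ?_ ?_
      · rw [mul_one, le_div_iff₀ Λ0, hΛ, mul_assoc]
        refine mul_le_of_le_one_right (Real.exp_pos _).le ?_
        rw [mul_pow, ← one_div, lt_div_iff₀ T0] at hJ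
        linarith
      · calc _ = ∑ j ∈ range J, Real.exp (1.09 * K) * (18 * (2 * Real.exp 4) * (21 / 20)) / Λ *
                (θ * (21 / 20)) ^ j := sum_congr rfl fun j _ => by
              rw [ht, mul_pow, div_pow, div_pow]; field_simp; ring
          _ ≤ _ := by
              rw [← mul_sum]
              exact (mul_le_mul_of_nonneg_left (geo (by positivity) θ1 J) (by positivity)).trans_eq
                (by ring)
  · refine (E_mono ok (g := fun S => (∑ j ∈ range (J + 1), if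
      ((S.filter fun i : Pr T Λ => lv i < j).card : ℝ) < 0.046 * j - K then 1 else 0) +
      if 48 * Λ < ∑ i ∈ S, Real.log i then 1 else 0) fun S _ => ?_).trans ?_
    · split_ifs with a1 a2 a2
      · positivity
      · positivity
      · exact le_add_of_nonneg_left (by positivity)
      · rw [hg, not_and_or, or_iff_left (not_not.mpr (not_lt.mp a2))] at a1
        push Not at a1
        obtain ⟨j, hj, a3⟩ := a1
        have := single_le_sum (f := fun j => if ((S.filter fun i : Pr T Λ => lv i < j).card : ℝ) <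
          0.046 * j - K then (1 : ℝ) else 0) (fun _ _ => by positivity) hj
        rw [if_pos a3] at this
        linarith
    · rw [E_add, E_sum, show (1 / 6 : ℝ) = 1 / 12 + 1 / 12 by norm_num]
      refine add_le_add ?_ ((markov ok (fun i => Real.log_natCast_nonneg _) (by positivity)).trans ?_)
      · rw [← hK]
        refine le_trans (sum_le_sum fun j hj => ?_) ((mul_sum _ _ _).ge.trans
          (mul_le_mul_of_nonneg_left (geo q0.le q1 (J + 1)) (Real.exp_pos _).le))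
        refine (chern ok _ (τ := 1 / 100) (by norm_num) _).trans ?_
        have a1 : 0.047 * j ≤ ∑ i ∈ univ.filter fun i : Pr T Λ => lv i < j, rc i := by
          have hj' : j ≤ J := by simpa [Nat.lt_succ_iff] using hj
          rw [sum_filter, sum_coe_sort _ fun p : ℕ => if lv p < j then rc p else 0, ← sum_filter]
          refine (mass j hj').trans (sum_le_sum_of_subset_of_nonneg (fun p hp => ?_)
            fun p _ _ => rc_nonneg p)
          obtain ⟨b1, b2, b3⟩ := mem_Pr.mp hp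
          have : p ∈ Pr T Λ := mem_Pr.mpr ⟨b1, by linarith [tm j hj'], b3⟩
          exact mem_filter.mpr ⟨this, l1 p this j b2⟩
        rw [hq, ← Real.exp_nat_mul, ← Real.exp_add, Real.exp_le_exp]
        nlinarith
      · have := mer_top (S := Pr T Λ) Λ0.le fun p hp => ⟨(mem_Pr.mp hp).1, (mem_Pr.mp hp).2.2⟩
        simp only [mul_assoc, ← mul_sum]
        rw [sum_coe_sort _ fun p : ℕ => rc p * Real.log p, inv_mul_le_iff₀ (by positivity)]
        linarith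

theorem many {h : ℝ} (h0 : 0 < h) (h1 : h ≤ 1) : ∃ c > 0, c ≤ 1 ∧ ∀ Y : ℕ,
    ∃ P : Finset ℕ, (∀ p ∈ P, p.Prime ∧ Y < p) ∧ Good (Real.exp h) P (1 - c) := by
  obtain ⟨c, c0, L, hL⟩ := top h0 h1
  obtain ⟨B, B0, hB⟩ := bot
  refine ⟨min (Real.exp (-14) * (1 / 7) ^ 2 * c ^ 4 / (72 * 7 * (2 * Real.exp 4) ^ 3 * (48 * B))) 1,
    lt_min (by positivity) one_pos, min_le_right _ _, fun Y => ?_⟩
  obtain ⟨T, Λ, T1, T2, good, inst, g1, g2, g3⟩ := hB (|L| + 1 + Y) h h1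
  have a1 := abs_nonneg L
  have a2 := le_abs_self L
  have a3 : (0 : ℝ) ≤ Y := Y.cast_nonneg
  have Λ0 : 0 < Λ := by linarith
  obtain ⟨s1, s2, s3, s4⟩ := hL (48 * Λ) (by linarith)
  have e : (univ : Finset (Pr T Λ)).image Subtype.val = Pr T Λ := attach_image_val
  refine ⟨univ.image (Subtype.val : Pr T Λ → ℕ) ∪ Pr (48 * Λ) (5 * (48 * Λ)), fun p hp => ?_,
    maxmat fun V hV hc => (min_le_left _ _).trans (le_trans (le_of_eq ?_)
      (core Subtype.val_injective (fun i => (mem_Pr.mp i.2).1) (fun p hp => (mem_Pr.mp hp).1) ?_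
        (Real.exp_pos _) s1 s2 h0.le (by norm_num) (by norm_num) (by positivity) (by positivity)
        (by positivity) (win (T := 48 * Λ) (by positivity) (by linarith) fun p hp =>
          ⟨(mem_Pr.mp hp).1, (mem_Pr.mp hp).2.1⟩) s3 s4 good g1 g2 g3 V hV hc))⟩
  · have : p.Prime ∧ T < Real.log p := by
      rw [e] at hp
      rcases mem_union.mp hp with hp | hp <;> obtain ⟨b1, b2, -⟩ := mem_Pr.mp hp
      exacts [⟨b1, b2⟩, ⟨b1, by linarith⟩]
    have := Real.log_le_self p.cast_nonneg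
    exact ⟨by tauto, by exact_mod_cast (show (Y : ℝ) < p by linarith)⟩
  · field_simp
  · rw [e]
    exact disjoint_left.mpr fun p h1 h2 => by linarith [(mem_Pr.mp h1).2.2, (mem_Pr.mp h2).2.1]

end Pool.Agent.H.MP_22cd7c_nt
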